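import Mathlib

/-!
Definitions for the two-phase overdetermined problem, on a Euclidean space `E`
(finite dimensional real inner product space with Lebesgue measure `volume`).
-/

namespace Pool.Agent.Lib.MP_8dfb46_an

open MeasureTheory Filter Topology
open scoped ContDiff RealInnerProductSpace

variable {E : Type} [NormedAddCommGroup E] [InnerProductSpace ℝ E] [FiniteDimensional ℝ E]
  [MeasurableSpace E] [BorelSpace E]

/-- `ρ` is a smooth local defining function of `Ω` at `p`: near `p` it is smooth,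
`Ω` is the set where it is negative, and its gradient at `p` is nonzero. -/
def IsDefiningAt (Ω : Set E) (p : E) (ρ : E → ℝ) : Prop :=
  ∃ U : Set E, IsOpen U ∧ p ∈ U ∧ ContDiffOn ℝ ∞ ρ U ∧ gradient ρ p ≠ 0 ∧
    ∀ x ∈ U, (x ∈ Ω ↔ ρ x < 0)

/-- A domain: bounded, connected (so nonempty), open, with smooth boundary. -/
def IsDomain (Ω : Set E) : Prop :=
  IsOpen Ω ∧ IsConnected Ω ∧ Bornology.IsBounded Ω ∧
    ∀ p ∈ frontier Ω, ∃ ρ : E → ℝ, IsDefiningAt Ω p ρ

/-- Smooth functions with compact support in `Ω`. -/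
def IsTest (Ω : Set E) (v : E → ℝ) : Prop :=
  ContDiff ℝ ∞ v ∧ HasCompactSupport v ∧ tsupport v ⊆ Ω

/-- `u` lies in `H¹₀(Ω)` with weak gradient `G`: both are in `L²(Ω)` and `(u, G)` is the
`L²(Ω)` limit of `(v n, ∇ v n)` for test functions `v n`. -/
def IsH10 (Ω : Set E) (u : E → ℝ) (G : E → E) : Prop :=
  MemLp u 2 (volume.restrict Ω) ∧ MemLp G 2 (volume.restrict Ω) ∧
    ∃ v : ℕ → E → ℝ, (∀ n, IsTest Ω (v n)) ∧
      Tendsto (fun n => eLpNorm (fun x => v n x - u x) 2 (volume.restrict Ω)) atTop (𝓝 0) ∧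
      Tendsto (fun n => eLpNorm (fun x => gradient (v n) x - G x) 2 (volume.restrict Ω))
        atTop (𝓝 0)

open Classical in
/-- The conductivity: `σ` in `D` and `1` outside `D`. -/
noncomputable def conductivity (σ : ℝ) (D : Set E) (x : E) : ℝ :=
  if x ∈ D then σ else 1

/-- `(D, Ω)` is a solution of the overdetermined problem with core conductivity `σ`:
`D`, `Ω` are domains, `closure D ⊆ Ω`, and for some constant `c` there is `u ∈ H¹₀(Ω)`
solving `-div (σ ∇ u) = 1` weakly, which near `∂Ω` agrees a.e. in `Ω` with a function `w`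
smooth on a neighbourhood of `∂Ω`, with `w = 0` and `∂ₙ w = c` on `∂Ω`; the outward unit normal
is the normalised gradient of a local defining function. -/
def IsSolution (σ : ℝ) (D Ω : Set E) : Prop :=
  IsDomain D ∧ IsDomain Ω ∧ closure D ⊆ Ω ∧
    ∃ (c : ℝ) (u : E → ℝ) (G : E → E), IsH10 Ω u G ∧
      (∀ v : E → ℝ, IsTest Ω v →
        ∫ x in Ω, conductivity σ D x * ⟪G x, gradient v x⟫ = ∫ x in Ω, v x) ∧
      ∃ (W : Set E) (w : E → ℝ), IsOpen W ∧ frontier Ω ⊆ W ∧ ContDiffOn ℝ ∞ w W ∧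
        (∀ᵐ x ∂(volume.restrict (Ω ∩ W)), w x = u x) ∧
        ∀ p ∈ frontier Ω, w p = 0 ∧ ∀ ρ : E → ℝ, IsDefiningAt Ω p ρ →
          fderiv ℝ w p (‖gradient ρ p‖⁻¹ • gradient ρ p) = c

/-- `Ω` solves the outer problem for the core `D` and the volume `V₀`. -/
def IsOuterSolution (σ : ℝ) (D : Set E) (V₀ : ℝ) (Ω : Set E) : Prop :=
  volume Ω = ENNReal.ofReal V₀ ∧ IsSolution σ D Ω

end Pool.Agent.Lib.MP_8dfb46_an
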