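import Mathlib

-- part Pool.Agent.Lib.MP_8dfb46_an.Laurent
section

/-! Laurent decomposition of bounded holomorphic functions on the annulus `1/2 < |z| < 2`. -/

namespace Pool.Agent.Lib.MP_8dfb46_an

open MeasureTheory Filter Topology Set Metric Complex
open scoped NNReal ComplexConjugate Real

/-- the annulus -/
def ann : Set ℂ := {z | 1 / 2 < ‖z‖ ∧ ‖z‖ < 2}

theorem isOpen_ann : IsOpen ann :=
  (isOpen_lt continuous_const continuous_norm).inter (isOpen_lt continuous_norm continuous_const)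

/-- reflection in the unit circle -/
noncomputable def refl (w : ℂ) : ℂ := (conj w)⁻¹

theorem norm_refl (w : ℂ) : ‖refl w‖ = ‖w‖⁻¹ := by simp [refl]

theorem refl_refl (w : ℂ) : refl (refl w) = w := by simp [refl]

theorem refl_mem {w : ℂ} (hw : w ∈ ann) : refl w ∈ ann := by
  obtain ⟨h1, h2⟩ := hw
  have h0 : 0 < ‖w‖ := by linarith
  refine ⟨?_, ?_⟩ <;> rw [norm_refl]
  · rw [lt_inv_comm₀ (by norm_num) h0]; linarith
  · rw [inv_lt_comm₀ h0 (by norm_num)]; linarith

theorem refl_unit {w : ℂ} (hw : ‖w‖ = 1) : refl w = w := by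
  unfold refl
  rw [← inv_eq_conj hw, inv_inv]

/-- reflected function -/
noncomputable def st (h : ℂ → ℂ) (w : ℂ) : ℂ := conj (h (refl w))

theorem diffAt_st {h : ℂ → ℂ} {w : ℂ} (hw : w ≠ 0) (hd : DifferentiableAt ℂ h (refl w)) :
    DifferentiableAt ℂ (st h) w := by
  have h1 : DifferentiableAt ℂ (fun z => h z⁻¹) (conj w) :=
    hd.comp (conj w) (differentiableAt_inv (by simpa using hw))
  have := h1.conj_conj
  rw [conj_conj] at this
  exact this

theorem ann_ne {w : ℂ} (hw : w ∈ ann) : w ≠ 0 := by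
  rintro rfl
  have := hw.1
  norm_num at this

theorem diffOn_st {h : ℂ → ℂ} (hd : DifferentiableOn ℂ h ann) : DifferentiableOn ℂ (st h) ann :=
  fun _ hw => (diffAt_st (ann_ne hw)
    (hd.differentiableAt (isOpen_ann.mem_nhds (refl_mem hw)))).differentiableWithinAt

theorem circ_conj (g : ℂ → ℂ) {R : ℝ} (hR : 0 < R) :
    conj (∮ s in C(0, R), g s) = -∮ z in C(0, R⁻¹), st g z / z ^ 2 := by
  unfold circleIntegral
  rw [← intervalIntegral.integral_neg, intervalIntegral.integral_of_le (by positivity),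
    intervalIntegral.integral_of_le (by positivity), ← integral_conj]
  congr 1
  funext θ
  have e : refl (circleMap 0 R⁻¹ θ) = circleMap 0 R θ := by
    simp [refl, circleMap, ← exp_conj, ← exp_neg, mul_comm]
  have e2 : conj (circleMap 0 R θ) = (circleMap 0 R⁻¹ θ)⁻¹ := by
    rw [← e]; simp [refl]
  have hne : circleMap 0 R⁻¹ θ ≠ 0 := circleMap_ne_center (inv_pos.2 hR).ne'
  simp only [deriv_circleMap, smul_eq_mul, map_mul, conj_I, st, e, e2]
  field_simp

theorem laurent0 {y : ℂ → ℂ} (hy : DifferentiableOn ℂ y ann) :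
    ∃ a b : ℂ → ℂ, DifferentiableOn ℂ a (ball 0 (3 / 2)) ∧ DifferentiableOn ℂ b (ball 0 (3 / 2)) ∧
      ∀ w, 2 / 3 < ‖w‖ → ‖w‖ < 3 / 2 → y w = a w + st b w := by
  have sph : ∀ {R : ℝ}, 1 / 2 < R → R < 2 → sphere (0 : ℂ) R ⊆ ann := fun h1 h2 z hz => by
    have : ‖z‖ = _ := mem_sphere_zero_iff_norm.1 hz
    exact ⟨by linarith, by linarith⟩
  have cauchy : ∀ {f : ℂ → ℂ}, DifferentiableOn ℂ f ann → DifferentiableOn ℂ
      (fun w => (2 * π * I : ℂ)⁻¹ • ∮ z in C(0, (3 / 2 : ℝ)), (z - w)⁻¹ • f z) (ball 0 (3 / 2)) := by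
    intro f hf
    have h1 : CircleIntegrable f 0 ((3 / 2 : ℝ≥0) : ℝ) :=
      (hf.continuousOn.mono (sph (by norm_num) (by norm_num))).circleIntegrable (by norm_num)
    have h2 := (hasFPowerSeriesOn_cauchy_integral h1 (by norm_num)).differentiableOn
    rw [Metric.eball_coe] at h2
    exact h2
  refine ⟨fun w => (2 * π * I : ℂ)⁻¹ • (∮ z in C(0, (3 / 2 : ℝ)), (z - w)⁻¹ • y z) -
    (2 * π * I : ℂ)⁻¹ • (∮ z in C(0, (2 / 3 : ℝ)), z⁻¹ * y z), _,
    (cauchy hy).sub_const _, cauchy (diffOn_st hy), fun w h1 h2 => ?_⟩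
  have hw : w ∈ ann := ⟨by linarith, by linarith⟩
  have hw0 := ann_ne hw
  have hq : DifferentiableOn ℂ (dslope y w) ann :=
    (differentiableOn_dslope (isOpen_ann.mem_nhds hw)).2 hy
  have hsub : closedBall (0 : ℂ) (3 / 2) \ ball 0 (2 / 3) ⊆ ann := fun z hz => by
    have a1 : ‖z‖ ≤ 3 / 2 := by simpa using hz.1
    have a2 : 2 / 3 ≤ ‖z‖ := by simpa using hz.2
    exact ⟨by linarith, by linarith⟩
  have e1 := circleIntegral_eq_of_differentiable_on_annulus_off_countable (c := 0)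
    (r := 2 / 3) (R := 3 / 2) (by norm_num) (by norm_num) countable_empty
    (hq.continuousOn.mono hsub) fun z hz => hq.differentiableAt (isOpen_ann.mem_nhds
      (hsub ⟨ball_subset_closedBall hz.1.1, fun h => hz.1.2 (ball_subset_closedBall h)⟩))
  have ci : ∀ {R : ℝ}, 1 / 2 < R → R < 2 → ‖w‖ ≠ R →
      (∀ z ∈ sphere (0 : ℂ) R, z ≠ w) ∧ CircleIntegrable (fun z => (z - w)⁻¹) 0 R ∧
      CircleIntegrable (fun z => (z - w)⁻¹ * y z) 0 R := fun {R} a1 a2 a3 => by
    have n : ∀ z ∈ sphere (0 : ℂ) R, z ≠ w := fun z hz e => a3 (e ▸ mem_sphere_zero_iff_norm.1 hz)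
    have c : ContinuousOn (fun z => (z - w)⁻¹) (sphere (0 : ℂ) R) :=
      (continuousOn_id.sub continuousOn_const).inv₀ fun z hz => sub_ne_zero.2 (n z hz)
    exact ⟨n, c.circleIntegrable (by linarith),
      (c.mul (hy.continuousOn.mono (sph a1 a2))).circleIntegrable (by linarith)⟩
  have split : ∀ {R : ℝ}, 1 / 2 < R → R < 2 → ‖w‖ ≠ R → (∮ z in C(0, R), dslope y w z) =
      (∮ z in C(0, R), (z - w)⁻¹ * y z) - y w * ∮ z in C(0, R), (z - w)⁻¹ := fun {R} a1 a2 a3 => by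
    obtain ⟨n, c1, c2⟩ := ci a1 a2 a3
    have c3 : CircleIntegrable (fun z => y w * (z - w)⁻¹) 0 R := c1.const_smul (a := y w)
    rw [← circleIntegral.integral_const_mul, ← circleIntegral.integral_sub c2 c3]
    refine circleIntegral.integral_congr (by linarith) fun z hz => ?_
    simp only [dslope_of_ne _ (n z hz), slope_def_module, smul_eq_mul]
    ring
  rw [split (by norm_num) (by norm_num) h2.ne, split (by norm_num) (by norm_num) h1.ne',
    circleIntegral.integral_sub_inv_of_mem_ball (by simpa using h2)] at e1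
  have z0 : (∮ z in C(0, (2 / 3 : ℝ)), (z - w)⁻¹) = 0 := by
    have n : ∀ z ∈ closedBall (0 : ℂ) (2 / 3), z - w ≠ 0 := fun z hz e => by
      rw [sub_eq_zero.1 e] at hz
      have : ‖w‖ ≤ 2 / 3 := by simpa using hz
      linarith
    exact circleIntegral_eq_zero_of_differentiable_on_off_countable (by norm_num) countable_empty
      ((continuousOn_id.sub continuousOn_const).inv₀ n)
      fun z hz => (differentiableAt_id.sub_const _).inv (n z (ball_subset_closedBall hz.1))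
  rw [z0, mul_zero, sub_zero] at e1
  have e2 : (∮ z in C(0, ((3 / 2 : ℝ))⁻¹), st (fun z => (z - refl w)⁻¹ • st y z) z / z ^ 2) =
      (∮ z in C(0, (2 / 3 : ℝ)), z⁻¹ * y z) - ∮ z in C(0, (2 / 3 : ℝ)), (z - w)⁻¹ * y z := by
    obtain ⟨n, -, c2⟩ := ci (R := 2 / 3) (by norm_num) (by norm_num) h1.ne'
    have s23 := sph (R := 2 / 3) (by norm_num) (by norm_num)
    have c3 : CircleIntegrable (fun z => z⁻¹ * y z) 0 (2 / 3) :=
      ((continuousOn_id.inv₀ fun z hz => ann_ne (s23 hz)).mul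
        (hy.continuousOn.mono s23)).circleIntegrable (by norm_num)
    rw [← circleIntegral.integral_sub c3 c2, show ((3 / 2 : ℝ))⁻¹ = 2 / 3 by norm_num]
    refine circleIntegral.integral_congr (by norm_num) fun z hz => ?_
    have z0 := ann_ne (s23 hz)
    have zw := sub_ne_zero.2 (n z hz)
    have wz := sub_ne_zero.2 (n z hz).symm
    simp only [st, refl, smul_eq_mul, map_mul, map_inv₀, map_sub, conj_conj, inv_inv]
    rw [inv_sub_inv z0 hw0]
    field_simp
    ring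
  simp only [st, smul_eq_mul, map_mul, map_inv₀, conj_I, conj_ofReal, conj_ofNat] at e2 ⊢
  have e3 := circ_conj (fun z => (z - refl w)⁻¹ * conj (y (refl z))) (R := 3 / 2) (by norm_num)
  simp only [st, map_mul, map_inv₀] at e3
  rw [e3, e2, ← e1]
  have : (π : ℂ) ≠ 0 := ofReal_ne_zero.2 Real.pi_ne_zero
  field_simp
  ring

open Classical in
theorem laurent {y : ℂ → ℂ} (hy : DifferentiableOn ℂ y ann) {M : ℝ} (hM : ∀ z ∈ ann, ‖y z‖ ≤ M) :
    ∃ a b : ℂ → ℂ, DifferentiableOn ℂ a (ball 0 2) ∧ DifferentiableOn ℂ b (ball 0 2) ∧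
      (∃ C, ∀ z ∈ ball (0 : ℂ) 2, ‖a z‖ ≤ C) ∧ (∃ C, ∀ z ∈ ball (0 : ℂ) 2, ‖b z‖ ≤ C) ∧
      ∀ w ∈ ann, y w = a w + st b w := by
  have glue : ∀ {y a b : ℂ → ℂ}, DifferentiableOn ℂ y ann → (∀ z ∈ ann, ‖y z‖ ≤ M) →
      DifferentiableOn ℂ a (ball 0 (3 / 2)) → DifferentiableOn ℂ b (ball 0 (3 / 2)) →
      (∀ w, 2 / 3 < ‖w‖ → ‖w‖ < 3 / 2 → y w = a w + st b w) →
      DifferentiableOn ℂ (fun w => if ‖w‖ ≤ 1 then a w else y w - st b w) (ball 0 2) ∧
      ∃ C, ∀ z ∈ ball (0 : ℂ) 2, ‖if ‖z‖ ≤ 1 then a z else y z - st b z‖ ≤ C := by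
    intro y a b hy hM ha hb he
    have cb : closedBall (0 : ℂ) 1 ⊆ ball 0 (3 / 2) := closedBall_subset_ball (by norm_num)
    constructor
    · intro w hw
      apply DifferentiableAt.differentiableWithinAt
      have hw2 : ‖w‖ < 2 := by simpa using hw
      by_cases h1 : ‖w‖ ≤ 1
      · have hm : ball (0 : ℂ) (3 / 2) ∈ 𝓝 w := isOpen_ball.mem_nhds (cb (by simpa using h1))
        refine (ha.differentiableAt hm).congr_of_eventuallyEq ?_
        filter_upwards [hm] with z hz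
        split_ifs with h
        · rfl
        · rw [he z (by linarith) (by simpa using hz)]; ring
      · push Not at h1
        have hwa : w ∈ ann := ⟨by linarith, hw2⟩
        have hr : refl w ∈ ball (0 : ℂ) (3 / 2) := cb (by
          simp only [mem_closedBall, dist_zero_right, norm_refl]
          exact inv_le_one_of_one_le₀ h1.le)
        refine ((hy.differentiableAt (isOpen_ann.mem_nhds hwa)).sub (diffAt_st (ann_ne hwa)
          (hb.differentiableAt (isOpen_ball.mem_nhds hr)))).congr_of_eventuallyEq ?_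
        filter_upwards [continuousAt_const.eventually_lt continuous_norm.continuousAt h1] with z hz
        rw [if_neg (not_le.2 hz)]; rfl
    · obtain ⟨Ca, hCa⟩ := (isCompact_closedBall (0 : ℂ) 1).exists_bound_of_continuousOn
        (ha.continuousOn.mono cb)
      obtain ⟨Cb, hCb⟩ := (isCompact_closedBall (0 : ℂ) 1).exists_bound_of_continuousOn
        (hb.continuousOn.mono cb)
      refine ⟨max Ca (M + Cb), fun z hz => ?_⟩
      split_ifs with h
      · exact (hCa z (by simpa using h)).trans (le_max_left _ _)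
      · push Not at h
        refine le_trans ((norm_sub_le _ _).trans (add_le_add
          (hM z ⟨by linarith, by simpa using hz⟩) ?_)) (le_max_right _ _)
        simp only [st, RCLike.norm_conj]
        apply hCb
        simp only [mem_closedBall, dist_zero_right, norm_refl]
        exact inv_le_one_of_one_le₀ h.le
  obtain ⟨a, b, ha, hb, he⟩ := laurent0 hy
  have he' : ∀ w, 2 / 3 < ‖w‖ → ‖w‖ < 3 / 2 → st y w = b w + st a w := fun w h1 h2 => by
    have h0 : 0 < ‖w‖ := by linarith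
    unfold st
    rw [he (refl w) (by rw [norm_refl, lt_inv_comm₀ (by norm_num) h0]; linarith)
      (by rw [norm_refl, inv_lt_comm₀ h0 (by norm_num)]; linarith)]
    simp [st, refl_refl, add_comm]
  obtain ⟨g1, g2⟩ := glue hy hM ha hb he
  obtain ⟨g3, g4⟩ := glue (diffOn_st hy) (fun z hz => by
    simp only [st, RCLike.norm_conj]; exact hM _ (refl_mem hz)) hb ha he'
  refine ⟨_, _, g1, g3, g2, g4, fun w hw => ?_⟩
  have h0 : 0 < ‖w‖ := norm_pos_iff.2 (ann_ne hw)
  simp only [st, norm_refl, refl_refl]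
  rcases lt_trichotomy ‖w‖ 1 with h | h | h
  · rw [if_pos h.le, if_neg (not_le.2 ((one_lt_inv₀ h0).2 h))]; simp
  · rw [if_pos h.le, if_pos (by rw [h]; norm_num)]
    exact he w (by rw [h]; norm_num) (by rw [h]; norm_num)
  · rw [if_neg (not_le.2 h), if_pos (inv_le_one_of_one_le₀ h.le)]; simp

end Pool.Agent.Lib.MP_8dfb46_an
end

-- part Pool.Agent.Lib.MP_8dfb46_an.Hinf
section

/-! The Banach algebra of bounded holomorphic functions on an open set. -/

namespace Pool.Agent.Lib.MP_8dfb46_an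

open MeasureTheory Filter Topology Set Metric Complex
open scoped NNReal ComplexConjugate Real BoundedContinuousFunction

open Classical in
/-- extension by zero -/
noncomputable def ext0 {U : Set ℂ} (h : U →ᵇ ℂ) (z : ℂ) : ℂ := if hz : z ∈ U then h ⟨z, hz⟩ else 0

theorem ext0_of_mem {U : Set ℂ} (h : U →ᵇ ℂ) {z : ℂ} (hz : z ∈ U) : ext0 h z = h ⟨z, hz⟩ :=
  dif_pos hz

/-- bounded holomorphic functions -/
noncomputable def HbS (U : Set ℂ) : Subalgebra ℝ (U →ᵇ ℂ) where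
  carrier := {h | DifferentiableOn ℂ (ext0 h) U}
  mul_mem' {a b} ha hb := (DifferentiableOn.mul ha hb).congr fun z hz => by simp [ext0_of_mem, hz]
  add_mem' {a b} ha hb := (DifferentiableOn.add ha hb).congr fun z hz => by simp [ext0_of_mem, hz]
  algebraMap_mem' r := (differentiableOn_const (r : ℂ)).congr fun z hz => by
    simp [ext0_of_mem, hz]

theorem isClosed_Hb {U : Set ℂ} (hU : IsOpen U) : IsClosed (HbS U : Set (U →ᵇ ℂ)) := by
  refine isClosed_of_closure_subset fun g hg => ?_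
  obtain ⟨f, hf, hl⟩ := mem_closure_iff_seq_limit.1 hg
  have h1 : TendstoUniformlyOn (fun n => ext0 (f n)) (ext0 g) atTop U := by
    rw [tendstoUniformlyOn_iff_tendstoUniformly_comp_coe]
    have := BoundedContinuousFunction.tendsto_iff_tendstoUniformly.1 hl
    convert this using 1
    · funext n x; simp [ext0_of_mem]
    · funext x; simp [ext0_of_mem]
  exact h1.tendstoLocallyUniformlyOn.differentiableOn (Eventually.of_forall hf) hU

/-- the type of bounded holomorphic functions -/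
def Hb (U : Set ℂ) : Type := HbS U

noncomputable instance (U : Set ℂ) : NormedCommRing (Hb U) :=
  inferInstanceAs (NormedCommRing (HbS U))

noncomputable instance (U : Set ℂ) : NormedAlgebra ℝ (Hb U) :=
  inferInstanceAs (NormedAlgebra ℝ (HbS U))

instance (U : Set ℂ) [h : Fact (IsOpen U)] : CompleteSpace (Hb U) :=
  (isClosed_Hb h.out).completeSpace_coe

instance : Fact (IsOpen ann) := ⟨isOpen_ann⟩

/-- the disc -/
def dsc : Set ℂ := ball 0 2

instance : Fact (IsOpen dsc) := ⟨isOpen_ball⟩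

/-- value of an element -/
noncomputable def val {U : Set ℂ} (h : Hb U) : ℂ → ℂ := ext0 h.1

theorem val_diff {U : Set ℂ} (h : Hb U) : DifferentiableOn ℂ (val h) U := h.2

theorem val_le {U : Set ℂ} (h : Hb U) {z : ℂ} (hz : z ∈ U) : ‖val h z‖ ≤ ‖h‖ := by
  rw [val, ext0_of_mem _ hz]; exact h.1.norm_coe_le_norm _

theorem Hb_ext {U : Set ℂ} {a b : Hb U} (h : ∀ z ∈ U, val a z = val b z) : a = b := by
  refine Subtype.ext (BoundedContinuousFunction.ext fun x => ?_)
  have := h x x.2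
  rwa [val, val, ext0_of_mem _ x.2, ext0_of_mem _ x.2] at this

theorem norm_le_of {U : Set ℂ} {a : Hb U} {C : ℝ} (hC : 0 ≤ C) (h : ∀ z ∈ U, ‖val a z‖ ≤ C) :
    ‖a‖ ≤ C := by
  refine (BoundedContinuousFunction.norm_le hC).2 fun x => ?_
  have := h x x.2
  rwa [val, ext0_of_mem _ x.2] at this

/-- build an element -/
noncomputable def mkH {U : Set ℂ} (f : ℂ → ℂ) (hd : DifferentiableOn ℂ f U) (C : ℝ)
    (hb : ∀ z ∈ U, ‖f z‖ ≤ C) : Hb U :=
  ⟨BoundedContinuousFunction.ofNormedAddCommGroup (fun x : U => f x) hd.continuousOn.domRestrict C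
    (fun x => hb x x.2), hd.congr fun z hz => by rw [ext0_of_mem _ hz]; rfl⟩

theorem val_mkH {U : Set ℂ} (f : ℂ → ℂ) (hd : DifferentiableOn ℂ f U) (C : ℝ)
    (hb : ∀ z ∈ U, ‖f z‖ ≤ C) {z : ℂ} (hz : z ∈ U) : val (mkH f hd C hb) z = f z := by
  rw [val, ext0_of_mem _ hz]; rfl

section
variable {U : Set ℂ} {z : ℂ} (hz : z ∈ U) (a b : Hb U)
include hz
theorem val_add : val (a + b) z = val a z + val b z := by
  simp only [val, ext0_of_mem _ hz]; rfl
theorem val_sub : val (a - b) z = val a z - val b z := by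
  simp only [val, ext0_of_mem _ hz]; rfl
theorem val_mul : val (a * b) z = val a z * val b z := by
  simp only [val, ext0_of_mem _ hz]; rfl
theorem val_neg : val (-a) z = -val a z := by
  simp only [val, ext0_of_mem _ hz]; rfl
theorem val_smul (r : ℝ) : val (r • a) z = r * val a z := by
  simp only [val, ext0_of_mem _ hz]; rfl
theorem val_one : val (1 : Hb U) z = 1 := by
  simp only [val, ext0_of_mem _ hz]; rfl
theorem val_zero : val (0 : Hb U) z = 0 := by
  simp only [val, ext0_of_mem _ hz]; rfl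
theorem val_pow (n : ℕ) : val (a ^ n) z = val a z ^ n := by
  induction n with
  | zero => rw [pow_zero, pow_zero, val_one hz]
  | succ n ih => rw [pow_succ, pow_succ, val_mul hz, ih]
end

/-- evaluation -/
noncomputable def evalL {U : Set ℂ} {z : ℂ} (hz : z ∈ U) : Hb U →L[ℝ] ℂ :=
  LinearMap.mkContinuous
    { toFun := fun a => val a z
      map_add' := val_add hz
      map_smul' := fun r a => by simp [val_smul hz] } 1 fun a => by simpa using val_le a hz

theorem ann_sub : ann ⊆ dsc := fun z hz => by simpa [dsc] using hz.2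

/-- restriction from the disc to the annulus -/
noncomputable def res : Hb dsc →L[ℝ] Hb ann :=
  LinearMap.mkContinuous
    { toFun := fun a => mkH (val a) ((val_diff a).mono ann_sub) ‖a‖ fun _ hz => val_le a (ann_sub hz)
      map_add' := fun a b => Hb_ext fun z hz => by
        simp only [val_mkH, val_add, hz, ann_sub hz]
      map_smul' := fun r a => Hb_ext fun z hz => by
        simp only [val_mkH, val_smul, hz, ann_sub hz, RingHom.id_apply] } 1 fun a =>
    norm_le_of (by positivity) fun z hz => by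
      simpa [val_mkH, hz] using val_le a (ann_sub hz)

theorem val_res (a : Hb dsc) {z : ℂ} (hz : z ∈ ann) : val (res a) z = val a z :=
  val_mkH _ ((val_diff a).mono ann_sub) ‖a‖ (fun _ hz => val_le a (ann_sub hz)) hz

/-- reflection -/
noncomputable def stL : Hb ann →L[ℝ] Hb ann :=
  LinearMap.mkContinuous
    { toFun := fun a => mkH (st (val a)) (diffOn_st (val_diff a)) ‖a‖ fun _ hz => by
        simpa [st] using val_le a (refl_mem hz)
      map_add' := fun a b => Hb_ext fun z hz => by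
        simp only [val_mkH, val_add, hz, refl_mem hz, st, map_add]
      map_smul' := fun r a => Hb_ext fun z hz => by
        simp only [val_mkH, val_smul, hz, refl_mem hz, RingHom.id_apply, st, map_mul, conj_ofReal] }
    1 fun a => norm_le_of (by positivity) fun z hz => by
      simpa [val_mkH, hz, st] using val_le a (refl_mem hz)

theorem val_stL (a : Hb ann) {z : ℂ} (hz : z ∈ ann) : val (stL a) z = conj (val a (refl z)) :=
  val_mkH _ (diffOn_st (val_diff a)) ‖a‖ (fun _ hz => by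
    simpa [st] using val_le a (refl_mem hz)) hz

theorem decomp (y : Hb ann) : ∃ a b : Hb dsc, y = res a + stL (res b) := by
  obtain ⟨a, b, ha, hb, ⟨Ca, hCa⟩, ⟨Cb, hCb⟩, h⟩ := laurent (val_diff y) fun z hz => val_le y hz
  refine ⟨mkH a ha Ca hCa, mkH b hb Cb hCb, Hb_ext fun z hz => ?_⟩
  rw [val_add hz, val_res _ hz, val_stL _ hz, val_res _ (refl_mem hz),
    val_mkH (U := dsc) a ha Ca hCa (ann_sub hz),
    val_mkH (U := dsc) b hb Cb hCb (ann_sub (refl_mem hz)), h z hz]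
  rfl

/-- the coordinate -/
noncomputable def idD : Hb dsc := mkH id differentiableOn_id 2 fun z hz => by
  have : ‖z‖ < 2 := by simpa [dsc] using hz
  exact this.le

theorem val_idD {z : ℂ} (hz : z ∈ dsc) : val idD z = z := val_mkH _ _ _ _ hz

/-- the series of `(exp x - 1) / x` -/
noncomputable def Ee {A : Type*} [NormedRing A] [NormedAlgebra ℝ A] (x : A) : A :=
  FormalMultilinearSeries.ofScalarsSum (fun n : ℕ => (((n + 1).factorial : ℝ))⁻¹) x

theorem Ee_radius (A : Type*) [NormedRing A] [NormedAlgebra ℝ A] :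
    (FormalMultilinearSeries.ofScalars A (fun n : ℕ => (((n + 1).factorial : ℝ))⁻¹)).radius = ⊤ := by
  refine FormalMultilinearSeries.ofScalars_radius_eq_top_of_tendsto _ _
    (Eventually.of_forall fun n => by positivity) ?_
  have : Tendsto (fun n : ℕ => (1 : ℝ) / ((n + 1 : ℕ) + 1)) atTop (𝓝 0) :=
    tendsto_one_div_add_atTop_nhds_zero_nat.comp (tendsto_add_atTop_nat 1)
  refine this.congr fun n => ?_
  rw [Real.norm_of_nonneg (by positivity), Real.norm_of_nonneg (by positivity), Nat.succ_eq_add_one,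
    Nat.factorial_succ (n + 1)]
  push_cast
  field_simp

theorem Ee_analytic {A : Type*} [NormedRing A] [NormedAlgebra ℝ A] [CompleteSpace A] (x : A) :
    AnalyticAt ℝ (Ee : A → A) x := by
  have h := FormalMultilinearSeries.hasFPowerSeriesOnBall _ (by rw [Ee_radius A]; simp)
  exact h.analyticOnNhd x (by rw [Ee_radius A]; simp)

theorem Ee_hasSum {A : Type*} [NormedRing A] [NormedAlgebra ℝ A] [CompleteSpace A] (x : A) :
    HasSum (fun n : ℕ => (((n + 1).factorial : ℝ))⁻¹ • x ^ n) (Ee x) := by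
  have h := FormalMultilinearSeries.hasSum
    (FormalMultilinearSeries.ofScalars A (fun n : ℕ => (((n + 1).factorial : ℝ))⁻¹)) (x := x)
    (by rw [Ee_radius A]; simp)
  simp only [FormalMultilinearSeries.ofScalars_apply_eq] at h
  exact h

theorem Ee_complex (z : ℂ) : 1 + z * Ee z = exp z := by
  have h1 := (Ee_hasSum z).mul_left z
  have h2 := NormedSpace.expSeries_div_hasSum_exp z
  rw [← Complex.exp_eq_exp_ℂ] at h2
  have h3 := (hasSum_nat_add_iff' 1).2 h2
  have h4 : z * Ee z = _ := h1.unique (by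
    refine h3.congr_fun fun n => ?_
    simp [pow_succ]; ring)
  rw [h4]; simp

theorem val_Ee {U : Set ℂ} [Fact (IsOpen U)] (a : Hb U) {z : ℂ} (hz : z ∈ U) :
    val (Ee a) z = Ee (val a z) := by
  have h := (Ee_hasSum a).mapL (evalL hz)
  refine h.unique ?_
  refine (Ee_hasSum (val a z)).congr_fun fun n => ?_
  change val _ z = _
  rw [val_smul hz, val_pow hz]; simp

end Pool.Agent.Lib.MP_8dfb46_an
end

-- part Pool.Agent.Lib.MP_8dfb46_an.IFT
section

/-! Solving the transmission condition by the implicit function theorem. -/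

namespace Pool.Agent.Lib.MP_8dfb46_an

open MeasureTheory Filter Topology Set Metric Complex
open scoped NNReal ComplexConjugate Real

noncomputable section

def q1 (α δ : ℝ) : ℝ := 2 * α / (1 + δ)
def q2 (α δ : ℝ) : ℝ := α ^ 2 * δ / (2 + δ)
def cc (α δ : ℝ) : ℝ :=
  -(1 + 2 * α * δ * (δ ^ 2 * q1 α δ) + α ^ 2 * δ ^ 2 * (δ ^ 2 * q2 α δ)) / (2 * (1 + α ^ 2 * δ ^ 2))
def L2 (α δ : ℝ) : ℝ := α ^ 2 * δ / 4
def L1 (α δ : ℝ) : ℝ := cc α δ * α + α + α ^ 2 * δ * (δ ^ 2 * q1 α δ) / 2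
def M1 (α δ : ℝ) : ℝ := -(cc α δ * α + δ * q1 α δ / 2 + α * (δ ^ 2 * q2 α δ))
def M2 (α δ : ℝ) : ℝ := -(δ * q2 α δ / 4)
def RR (ρ δ : ℝ) : ℝ := Real.exp (δ * Real.log ρ)

def Hq (α δ : ℝ) (W : ℂ) : ℂ :=
  L2 α δ * W ^ 2 + L1 α δ * W + M1 α δ * W⁻¹ + M2 α δ * W⁻¹ ^ 2

def exD (x : Hb dsc) : Hb dsc := 1 + x * Ee x
def WD (ρ δ : ℝ) (g : Hb dsc) : Hb dsc := ρ • (idD * exD (δ • g))
def sD (α ρ δ : ℝ) (g : Hb dsc) : Hb dsc :=
  g * Ee (δ ^ 2 • g) + (q1 α δ • WD ρ δ g + q2 α δ • WD ρ δ g ^ 2) +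
    δ ^ 2 • (g * Ee (δ ^ 2 • g) * (q1 α δ • WD ρ δ g + q2 α δ • WD ρ δ g ^ 2))
def WI (ρ δ : ℝ) (g : Hb dsc) : Hb ann := ρ⁻¹ • (stL (res idD) * res (exD (-δ • g)))
def HA (α ρ δ : ℝ) (g : Hb dsc) : Hb ann :=
  L2 α δ • res (WD ρ δ g) ^ 2 + L1 α δ • res (WD ρ δ g) + M1 α δ • WI ρ δ g + M2 α δ • WI ρ δ g ^ 2
def NA (σ α ρ δ : ℝ) (g : Hb dsc) : Hb ann :=
  (σ + 1) • HA α ρ δ g + (σ - 1) • stL (HA α ρ δ g) - ((σ - 1) / 2 * RR ρ δ ^ 2) •
    (res (sD α ρ δ g) + stL (res (sD α ρ δ g)) +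
      δ ^ 2 • (res (sD α ρ δ g) * stL (res (sD α ρ δ g))))

theorem Ee_contDiff : ContDiff ℝ 1 (Ee : Hb dsc → Hb dsc) :=
  contDiff_iff_contDiffAt.2 fun x => (Ee_analytic x).contDiffAt

variable {σ α ρ : ℝ}

theorem cd_q1 : ContDiffAt ℝ 1 (q1 α) 0 := by unfold q1; fun_prop (disch := norm_num)
theorem cd_q2 : ContDiffAt ℝ 1 (q2 α) 0 := by unfold q2; fun_prop (disch := norm_num)
theorem cd_cc : ContDiffAt ℝ 1 (cc α) 0 := by
  have := cd_q1 (α := α); have := cd_q2 (α := α)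
  unfold cc; fun_prop (disch := norm_num)
theorem cd_L2 : ContDiffAt ℝ 1 (L2 α) 0 := by unfold L2; fun_prop
theorem cd_L1 : ContDiffAt ℝ 1 (L1 α) 0 := by
  have := cd_q1 (α := α); have := cd_cc (α := α)
  unfold L1; fun_prop
theorem cd_M1 : ContDiffAt ℝ 1 (M1 α) 0 := by
  have := cd_q1 (α := α); have := cd_q2 (α := α); have := cd_cc (α := α)
  unfold M1; fun_prop
theorem cd_M2 : ContDiffAt ℝ 1 (M2 α) 0 := by
  have := cd_q2 (α := α)
  unfold M2; fun_prop
theorem cd_RR : ContDiffAt ℝ 1 (RR ρ) 0 := by unfold RR; fun_prop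

abbrev PP := ℝ × Hb dsc × Hb dsc

theorem cd_WD : ContDiff ℝ 1 fun p : PP => WD ρ p.1 p.2.1 := by
  have := Ee_contDiff
  unfold WD exD; fun_prop

theorem cd_WI : ContDiff ℝ 1 fun p : PP => WI ρ p.1 p.2.1 := by
  have := Ee_contDiff
  unfold WI exD; fun_prop

theorem cd_fst {f : ℝ → ℝ} (h : ContDiffAt ℝ 1 f 0) (y : Hb dsc × Hb dsc) :
    ContDiffAt ℝ 1 (fun p : PP => f p.1) (0, y) :=
  ContDiffAt.comp (0, y) (g := f) (f := fun p : PP => p.1) h contDiffAt_fst

theorem cd_sD (y : Hb dsc × Hb dsc) :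
    ContDiffAt ℝ 1 (fun p : PP => sD α ρ p.1 p.2.1) (0, y) := by
  have := Ee_contDiff
  have := (cd_WD (ρ := ρ)).contDiffAt (x := (0, y))
  have := cd_fst (cd_q1 (α := α)) y
  have := cd_fst (cd_q2 (α := α)) y
  unfold sD; fun_prop

theorem cd_HA (y : Hb dsc × Hb dsc) :
    ContDiffAt ℝ 1 (fun p : PP => HA α ρ p.1 p.2.1) (0, y) := by
  have := (cd_WD (ρ := ρ)).contDiffAt (x := (0, y))
  have := (cd_WI (ρ := ρ)).contDiffAt (x := (0, y))
  have := cd_fst (cd_L2 (α := α)) y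
  have := cd_fst (cd_L1 (α := α)) y
  have := cd_fst (cd_M1 (α := α)) y
  have := cd_fst (cd_M2 (α := α)) y
  unfold HA; fun_prop

theorem cd_NA (y : Hb dsc × Hb dsc) :
    ContDiffAt ℝ 1 (fun p : PP => NA σ α ρ p.1 p.2.1) (0, y) := by
  have := cd_HA (α := α) (ρ := ρ) y
  have := cd_sD (α := α) (ρ := ρ) y
  have := cd_fst (cd_RR (ρ := ρ)) y
  unfold NA; fun_prop

theorem Ee_zero {A : Type*} [NormedRing A] [NormedAlgebra ℝ A] : Ee (0 : A) = 1 := by
  simp [Ee, FormalMultilinearSeries.ofScalarsSum_zero]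

theorem sD_zero (g : Hb dsc) : sD α ρ 0 g = g + (2 * α * ρ) • idD := by
  simp [sD, WD, exD, Ee_zero, q1, q2, smul_smul]

theorem NA_zero (g : Hb dsc) : NA σ α ρ 0 g =
    ((σ + 1) * α * ρ / 2 + (σ - 1) * α / (2 * ρ) - (σ - 1) * α * ρ) • res idD +
    ((σ + 1) * α / (2 * ρ) + (σ - 1) * α * ρ / 2 - (σ - 1) * α * ρ) • stL (res idD) -
    ((σ - 1) / 2) • (res g + stL (res g)) := by
  have hss : stL (stL (res idD)) = res idD := Hb_ext fun z hz => by
    rw [val_stL _ hz, val_stL _ (refl_mem hz), refl_refl, conj_conj]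
  have r1 : res 1 = 1 := Hb_ext fun z hz => by
    rw [val_res _ hz, val_one hz, val_one (ann_sub hz)]
  simp only [NA, HA, sD_zero, WD, WI, exD, L2, L1, M1, M2, cc, RR, map_add, map_smul, neg_zero,
    zero_smul, zero_mul, add_zero, mul_one, r1, hss, mul_zero, zero_div, ne_eq, OfNat.ofNat_ne_zero,
    not_false_eq_true, zero_pow, Real.exp_zero, one_pow, zero_add]
  module

theorem exists_sol (hσ : σ ≠ 1) (hρ : ρ ≠ 0) {η : ℝ} (hη : 0 < η) :
    ∃ M : ℝ, ∀ᶠ δ : ℝ in 𝓝 (0 : ℝ), ∃ g v : Hb dsc, ‖g‖ ≤ M ∧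
      ‖sD α ρ δ g - (α * (ρ + (σ + 1) / (σ - 1) / ρ)) • idD‖ < η ∧ NA σ α ρ δ g = res v := by
  have hσ' : σ - 1 ≠ 0 := sub_ne_zero.2 hσ
  let g₀ : Hb dsc := (α * ((σ + 1) / (σ - 1) / ρ - ρ)) • idD
  let v₀ : Hb dsc := ((σ + 1) * α * ρ / 2 + (σ - 1) * α / (2 * ρ) - (σ - 1) * α * ρ -
    (σ - 1) / 2 * (α * ((σ + 1) / (σ - 1) / ρ - ρ))) • idD
  let Φ : PP → ℝ × Hb ann := fun p => (p.1, NA σ α ρ p.1 p.2.1 - res p.2.2)
  have hΦ : ContDiffAt ℝ 1 Φ (0, g₀, v₀) := by
    have := cd_NA (σ := σ) (α := α) (ρ := ρ) (g₀, v₀)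
    fun_prop
  have h0 : Φ (0, g₀, v₀) = (0, 0) := by
    simp only [Φ, NA_zero, g₀, v₀, map_smul, Prod.mk.injEq, true_and]
    match_scalars <;> field_simp <;> ring
  have hs := hΦ.hasStrictFDerivAt one_ne_zero
  set D := fderiv ℝ Φ (0, g₀, v₀) with hD
  have d1 : ∀ p, (D p).1 = p.1 := fun p => by
    have a1 := (ContinuousLinearMap.fst ℝ ℝ (Hb ann)).hasFDerivAt.comp _ hs.hasFDerivAt
    have a2 : HasFDerivAt (fun p : PP => p.1) (ContinuousLinearMap.fst ℝ ℝ _) (0, g₀, v₀) :=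
      hasFDerivAt_fst
    exact congrArg (fun L => L p) (a1.unique a2)
  have d2 : ∀ γ v : Hb dsc, (D (0, γ, v)).2 = -((σ - 1) / 2) • (res γ + stL (res γ)) - res v := by
    intro γ v
    have a0 : HasFDerivAt (fun p => (Φ p).2) ((ContinuousLinearMap.snd ℝ ℝ (Hb ann)).comp D)
        (0, g₀, v₀) := (ContinuousLinearMap.snd ℝ ℝ (Hb ann)).hasFDerivAt.comp _ hs.hasFDerivAt
    have a1 : HasDerivAt (fun t : ℝ => (Φ ((0, g₀, v₀) + t • (0, γ, v))).2) (D (0, γ, v)).2 0 :=
      a0.hasLineDerivAt (0, γ, v)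
    have a2 : HasDerivAt (fun t : ℝ => (Φ ((0, g₀, v₀) + t • (0, γ, v))).2)
        (-((σ - 1) / 2) • (res γ + stL (res γ)) - res v) 0 := by
      have a3 := ((hasDerivAt_id (0 : ℝ)).smul_const
        (-((σ - 1) / 2) • (res γ + stL (res γ)) - res v)).const_add (Φ (0, g₀, v₀)).2
      rw [one_smul] at a3
      refine a3.congr_of_eventuallyEq (Eventually.of_forall fun t => ?_)
      simp only [Φ, Prod.smul_mk, Prod.mk_add_mk, smul_zero, add_zero, NA_zero, map_add, map_smul, id]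
      module
    exact a1.unique a2
  have hsurj : D.range = ⊤ := by
    rw [LinearMap.range_eq_top]
    rintro ⟨a, y⟩
    obtain ⟨a', b', e⟩ := decomp (y - (D (a, 0, 0)).2)
    refine ⟨(a, 0, 0) + (0, (-2 / (σ - 1)) • b', b' - a'), ?_⟩
    change D _ = _
    rw [map_add]
    refine Prod.ext (by simp [d1]) ?_
    rw [Prod.snd_add, d2, ← sub_eq_zero]
    rw [sub_eq_iff_eq_add] at e
    simp only [map_smul, map_sub]
    rw [e]
    match_scalars <;> field_simp <;> ring
  have hmap := hs.map_nhds_eq_of_surj hsurj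
  rw [h0] at hmap
  have c1 : ContinuousAt (fun p : PP => ‖p.2.1‖) (0, g₀, v₀) := by fun_prop
  have c2 : ContinuousAt (fun p : PP =>
      ‖sD α ρ p.1 p.2.1 - (α * (ρ + (σ + 1) / (σ - 1) / ρ)) • idD‖) (0, g₀, v₀) :=
    ((cd_sD (g₀, v₀)).continuousAt.sub continuousAt_const).norm
  have S1 := c1.eventually_lt continuousAt_const (lt_add_one ‖g₀‖)
  have S2 := c2.eventually_lt (continuousAt_const (y := η)) (by
    have : sD α ρ 0 g₀ - (α * (ρ + (σ + 1) / (σ - 1) / ρ)) • idD = 0 := by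
      rw [sD_zero]; simp only [g₀]; module
    simp only [this, norm_zero]; exact hη)
  have S := image_mem_map (m := Φ) (S1.and S2)
  rw [hmap] at S
  have c3 : Tendsto (fun δ : ℝ => ((δ, 0) : ℝ × Hb ann)) (𝓝 0) (𝓝 (0, 0)) :=
    (continuous_id.prodMk continuous_const).tendsto 0
  refine ⟨‖g₀‖ + 1, ?_⟩
  filter_upwards [c3 S] with δ hδ
  obtain ⟨⟨δ', g, v⟩, ⟨b1, b2⟩, e⟩ := hδ
  simp only [Φ, Prod.mk.injEq] at e
  obtain ⟨rfl, e⟩ := e
  exact ⟨g, v, b1.le, b2, sub_eq_zero.1 e⟩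

theorem val_exD (x : Hb dsc) {z : ℂ} (hz : z ∈ dsc) : val (exD x) z = exp (val x z) := by
  rw [exD, val_add hz, val_one hz, val_mul hz, val_Ee _ hz, Ee_complex]

theorem exists_sol' (hσ : σ ≠ 1) (hρ : ρ ≠ 0) {η : ℝ} (hη : 0 < η) :
    ∃ M : ℝ, ∀ᶠ δ : ℝ in 𝓝 (0 : ℝ), ∃ g s v : ℂ → ℂ, DifferentiableOn ℂ g (ball 0 2) ∧
      DifferentiableOn ℂ s (ball 0 2) ∧ DifferentiableOn ℂ v (ball 0 2) ∧
      (∀ w ∈ ball (0 : ℂ) 2, ‖g w‖ ≤ M ∧
        ‖s w - (α * (ρ + (σ + 1) / (σ - 1) / ρ) : ℝ) * w‖ ≤ η ∧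
        1 + δ ^ 2 * s w = exp (δ ^ 2 * g w) * (1 + δ ^ 2 * (q1 α δ * (ρ * w * exp (δ * g w)) +
          q2 α δ * (ρ * w * exp (δ * g w)) ^ 2))) ∧
      ∀ w : ℂ, ‖w‖ = 1 → v w = (σ + 1) * Hq α δ (ρ * w * exp (δ * g w)) +
        (σ - 1) * conj (Hq α δ (ρ * w * exp (δ * g w))) -
        (σ - 1) / 2 * RR ρ δ ^ 2 * (s w + conj (s w) + δ ^ 2 * (s w * conj (s w))) := by
  obtain ⟨M, h⟩ := exists_sol (α := α) hσ hρ hη
  refine ⟨M, h.mono ?_⟩
  rintro δ ⟨g, v, h1, h2, h3⟩
  have vW : ∀ w ∈ dsc, val (WD ρ δ g) w = ρ * w * exp (δ * val g w) := fun w hw => by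
    rw [WD, val_smul hw, val_mul hw, val_idD hw, val_exD _ hw, val_smul hw, mul_assoc]
  refine ⟨val g, val (sD α ρ δ g), val v, val_diff g, val_diff _, val_diff v,
    fun w hw => ⟨(val_le g hw).trans h1, ?_, ?_⟩, fun w hw => ?_⟩
  · change w ∈ dsc at hw
    have := (val_le _ hw).trans h2.le
    rwa [val_sub hw, val_smul hw, val_idD hw] at this
  · change w ∈ dsc at hw
    have := Ee_complex (δ ^ 2 * val g w)
    simp only [sD, val_add hw, val_mul hw, val_smul hw, val_pow hw, val_Ee _ hw, vW w hw, ofReal_pow]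
    rw [← this]; ring
  · have ha : w ∈ ann := ⟨by rw [hw]; norm_num, by rw [hw]; norm_num⟩
    have hd := ann_sub ha
    have vI : val (WI ρ δ g) w = (ρ * w * exp (δ * val g w))⁻¹ := by
      rw [WI, val_smul ha, val_mul ha, val_stL _ ha, refl_unit hw, val_res _ ha, val_res _ ha,
        val_idD hd, val_exD _ hd, val_smul hd, ← inv_eq_conj hw]
      push_cast
      rw [neg_mul, exp_neg, mul_inv, mul_inv, mul_assoc]
    have vH : val (HA α ρ δ g) w = Hq α δ (ρ * w * exp (δ * val g w)) := by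
      simp only [HA, Hq, val_add ha, val_smul ha, val_pow ha, val_res _ ha, vW w hd, vI]
    rw [← val_res v ha, ← h3]
    simp only [NA, val_add ha, val_sub ha, val_mul ha, val_smul ha, val_res _ ha, val_stL _ ha,
      refl_unit hw, vH]
    push_cast; ring

end

end Pool.Agent.Lib.MP_8dfb46_an
end
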