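import Pool.Agent.Lib.MP_8dfb46_an.Outer

/-! The counterexample. -/

namespace Pool.Agent.Lib.MP_8dfb46_an

open MeasureTheory Filter Topology Set Metric Complex
open scoped NNReal ComplexConjugate Real

theorem build {σ α ρ δ η M : ℝ} {m : ℕ} {g s v : ℂ → ℂ} (hσ : σ ≠ 0) (hρ : 0 < ρ)
    (hα : -1 ≤ α) (hα' : α < -1 / 2) (hδ : 0 < δ) (hk : δ * (m + 1) = 1) {β : ℝ}
    (hsm : |β| + 12 * η + 15 * δ < 1) (hM : Real.log ρ + δ * M < 0)
    (hs : DifferentiableOn ℂ s (ball 0 2)) (hv : DifferentiableOn ℂ v (ball 0 2))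
    (h1 : ∀ w ∈ ball (0 : ℂ) 2, ‖g w‖ ≤ M ∧ ‖s w - β * w‖ ≤ η ∧
        1 + δ ^ 2 * s w = exp (δ ^ 2 * g w) * (1 + δ ^ 2 * (q1 α δ * (ρ * w * exp (δ * g w)) +
          q2 α δ * (ρ * w * exp (δ * g w)) ^ 2)))
    (h2 : ∀ w : ℂ, ‖w‖ = 1 → v w = (σ + 1) * Hq α δ (ρ * w * exp (δ * g w)) +
        (σ - 1) * conj (Hq α δ (ρ * w * exp (δ * g w))) -
        (σ - 1) / 2 * RR ρ δ ^ 2 * (s w + conj (s w) + δ ^ 2 * (s w * conj (s w)))) :
    ∃ D Ω : Set ℂ, Convex ℝ D ∧ IsSolution σ D Ω ∧ ¬ Convex ℝ Ω := by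
  have hη : 0 ≤ η := (norm_nonneg _).trans (h1 0 (by simp)).2.1
  have hδ3 : δ ≤ 1 / 3 := by linarith [abs_nonneg β]
  obtain ⟨r, hr', hr⟩ : ∃ r : ℝ, r ^ (m + 1) < 3 / 2 ∧ 1 < r := by
    have c : ContinuousAt (fun r : ℝ => r ^ (m + 1)) 1 := by fun_prop
    have := c.eventually_lt (continuousAt_const (y := (3 / 2 : ℝ))) (by norm_num)
    exact ((this.filter_mono nhdsWithin_le_nhds).and (self_mem_nhdsWithin (s := Ioi 1))).exists
  set R := RR ρ δ with hRdef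
  have hR : 0 < R := Real.exp_pos _
  have hRk : (R : ℂ) ^ (m + 1) = ρ := by
    rw [← ofReal_pow, hRdef, RR, ← Real.exp_nat_mul]
    push_cast
    rw [← mul_assoc, mul_comm ((m : ℂ) + 1), show (δ : ℂ) * (m + 1) = 1 by exact_mod_cast hk, one_mul,
      ← ofReal_exp, Real.exp_log hρ]
  obtain ⟨cF, hDc⟩ := FF_good hR hδ hk hs (fun w hw => (h1 w hw).2.1) hsm hr hr'
  have cφ : Conf (phi α δ m) r := phi_conf hδ hk (abs_le.2 ⟨hα, by linarith⟩) hδ3 hr hr'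
  set F := FF R δ m s with hF
  set φ := phi α δ m with hφ
  have pw : ∀ ξ ∈ ball (0 : ℂ) r, ξ ^ (m + 1) ∈ ball (0 : ℂ) 2 := fun ξ hξ => by
    rw [mem_ball_zero_iff, norm_pow]
    exact ((pow_le_pow_left₀ (norm_nonneg ξ) (mem_ball_zero_iff.1 hξ).le _).trans_lt hr').trans
      (by norm_num)
  let f : ℂ → ℂ := fun ξ => R * ξ * exp (δ ^ 2 * g (ξ ^ (m + 1)))
  have fk : ∀ ξ, f ξ ^ (m + 1) = ρ * ξ ^ (m + 1) * exp (δ * g (ξ ^ (m + 1))) := fun ξ => by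
    simp only [f]
    rw [mul_pow, mul_pow, hRk, ← exp_nat_mul]
    congr 2
    have e3 : (δ : ℂ) * (m + 1) = 1 := by exact_mod_cast hk
    push_cast
    linear_combination (δ * g (ξ ^ (m + 1))) * e3
  have φf : ∀ ξ ∈ ball (0 : ℂ) r, φ (f ξ) = F ξ := fun ξ hξ => by
    simp only [hφ, hF, phi, FF, fk, (h1 _ (pw ξ hξ)).2.2]
    simp only [f]; ring
  have f1 : ∀ ξ ∈ closedBall (0 : ℂ) 1, f ξ ∈ ball (0 : ℂ) 1 := fun ξ hξ => by
    have a1 : ‖ξ‖ ≤ 1 := by simpa using hξ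
    have a2 := (h1 _ (pw ξ (cF.cb hξ))).1
    have a3 : ‖exp (δ ^ 2 * g (ξ ^ (m + 1)))‖ ≤ Real.exp (δ ^ 2 * M) := by
      refine (norm_exp_le_exp_norm _).trans (Real.exp_le_exp.2 ?_)
      rw [norm_mul, norm_pow, norm_real, Real.norm_of_nonneg hδ.le]
      exact mul_le_mul_of_nonneg_left a2 (by positivity)
    rw [mem_ball_zero_iff]
    simp only [f, norm_mul, norm_real, Real.norm_of_nonneg hR.le]
    calc R * ‖ξ‖ * ‖exp (δ ^ 2 * g (ξ ^ (m + 1)))‖ ≤ R * 1 * Real.exp (δ ^ 2 * M) := by gcongr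
      _ = Real.exp (δ * (Real.log ρ + δ * M)) := by
        rw [mul_one, hRdef, RR, ← Real.exp_add]; congr 1; ring
      _ < 1 := Real.exp_lt_one_iff.2 (mul_neg_of_pos_of_neg hδ hM)
  refine ⟨F '' ball 0 1, φ '' ball 0 1, hDc, ?_,
    phi_not_convex hδ hk hα hα' (by linarith) cφ⟩
  have hO₂ : IsOpen (φ '' (ball 0 r \ {0})) :=
    cφ.isOpen_image (isOpen_ball.sdiff isClosed_singleton) sdiff_subset
  have bd : ∀ z ∈ frontier (F '' ball 0 1),
      (δ ^ 2 * v (Conf.inv F r z ^ (m + 1)) + ((2 * σ * h0 α δ - (σ - 1) * R ^ 2 / 2 : ℝ) : ℂ)) / 2 =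
        ((σ + 1) * HH α δ m (Conf.inv φ r z) + (σ - 1) * conj (HH α δ m (Conf.inv φ r z))) / 2 -
          (σ - 1) * ((‖z‖ ^ 2 / 4 : ℝ) : ℂ) := by
    intro z hz
    obtain ⟨ξ, hξ, rfl⟩ := cF.frontier_sub hz
    have hξr := cF.sb hξ
    have e1 : Conf.inv φ r (F ξ) = f ξ := by
      rw [← φf ξ hξr, cφ.inv_apply (cφ.bb (f1 ξ (by simp [hξ])))]
    have hw : ‖ξ ^ (m + 1)‖ = 1 := by rw [norm_pow, hξ, one_pow]
    have e2 : ((‖F ξ‖ : ℂ)) ^ 2 = R ^ 2 * ((1 + δ ^ 2 * s (ξ ^ (m + 1))) *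
        (1 + δ ^ 2 * conj (s (ξ ^ (m + 1))))) := by
      have a1 : ξ * conj ξ = 1 := by rw [mul_conj', hξ]; simp
      rw [← mul_conj']
      simp only [hF, FF, map_mul, map_add, map_one, map_pow, conj_ofReal]
      linear_combination (R ^ 2 * ((1 + δ ^ 2 * s (ξ ^ (m + 1))) *
        (1 + δ ^ 2 * conj (s (ξ ^ (m + 1)))))) * a1
    rw [cF.inv_apply hξr, e1, h2 _ hw]
    simp only [HH, fk, map_add, map_mul, map_pow, conj_ofReal]
    push_cast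
    rw [e2]; ring
  refine assemble (c := cc α δ) hσ cF.isDomain cφ.isDomain ?_ hDc
    (A := fun z => (δ ^ 2 * v (Conf.inv F r z ^ (m + 1)) +
      ((2 * σ * h0 α δ - (σ - 1) * R ^ 2 / 2 : ℝ) : ℂ)) / 2)
    (B := fun z => HH α δ m (Conf.inv φ r z)) (cF.isOpen_image isOpen_ball subset_rfl) hO₂
    ?_ ?_ ?_ ?_ (fun z hz => ?_) (fun z hz => ?_) (fun z hz => ?_) fun p hp => ?_
  · rw [cF.closure_eq]
    rintro _ ⟨ξ, hξ, rfl⟩
    exact ⟨f ξ, f1 ξ hξ, φf ξ (cF.cb hξ)⟩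
  · rw [cF.closure_eq]; exact image_mono cF.cb
  · rw [cφ.closure_eq]
    rintro _ ⟨⟨ζ, hζ, rfl⟩, hn⟩
    refine ⟨ζ, ⟨cφ.cb hζ, fun h0 => hn ⟨0, by simp, ?_⟩⟩, rfl⟩
    rw [mem_singleton_iff.1 h0]; simp [hF, hφ, FF, phi]
  · refine (((hv.comp (cF.diff_inv.pow (m + 1)) ?_).const_mul _).add_const _).div_const 2
    rintro _ ⟨ξ, hξ, rfl⟩
    simp only [Pi.pow_apply, cF.inv_apply hξ]
    exact pw ξ hξ
  · rintro _ ⟨ζ, hζ, rfl⟩
    refine DifferentiableAt.differentiableWithinAt (DifferentiableAt.comp _ (g := HH α δ m) ?_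
      (cφ.hasDerivAt_inv hζ.1).differentiableAt)
    rw [cφ.inv_apply hζ.1]
    exact (HH_deriv hζ.2 hk).differentiableAt
  · simp only [bd z hz]
    generalize HH α δ m (Conf.inv φ r z) = B
    generalize ‖z‖ ^ 2 / 4 = N
    simp
    field_simp
    ring
  · simp only [bd z hz]
    generalize HH α δ m (Conf.inv φ r z) = B
    generalize ‖z‖ ^ 2 / 4 = N
    simp
    ring
  · obtain ⟨ζ, hζ, rfl⟩ := cφ.frontier_sub hz
    simp only [cφ.inv_apply (cφ.sb hζ)]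
    exact HH_re hδ hζ
  · obtain ⟨ζ, hζ, rfl⟩ := cφ.frontier_sub hp
    have hζr := cφ.sb hζ
    have hζ0 : ζ ≠ 0 := by rintro rfl; simp at hζ
    refine ⟨_, (cφ.defining hζ).1, ?_⟩
    rw [(cφ.defining hζ).2]
    have d1 : HasDerivAt (HH α δ m) (deriv (HH α δ m) ζ) (Conf.inv φ r (φ ζ)) := by
      rw [cφ.inv_apply hζr]; exact (HH_deriv hζ0 hk).differentiableAt.hasDerivAt
    have d2 := (d1.comp (φ ζ) (cφ.hasDerivAt_inv hζr)).deriv
    erw [d2]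
    exact HH_normal hδ hk hζ (cφ.ne hζr)

theorem exists_complex {σ : ℝ} (h0 : 0 < σ) (h1 : σ < 1 / 2) :
    ∃ D Ω : Set ℂ, Convex ℝ D ∧ IsSolution σ D Ω ∧ ¬ Convex ℝ Ω := by
  have hσ : σ - 1 < 0 := by linarith
  obtain ⟨t, ⟨ht, ht1⟩, ht0⟩ : ∃ t : ℝ,
      (|-(1 / 2 + t) * ((1 - t) + (σ + 1) / (σ - 1) / (1 - t))| < 1 ∧ t < 1 / 2) ∧ 0 < t := by
    have c : ContinuousAt
        (fun t : ℝ => |-(1 / 2 + t) * ((1 - t) + (σ + 1) / (σ - 1) / (1 - t))|) 0 := by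
      fun_prop (disch := norm_num)
    have a1 := c.eventually_lt (continuousAt_const (y := (1 : ℝ))) (by
      have e : -(1 / 2 + 0) * ((1 - 0) + (σ + 1) / (σ - 1) / (1 - 0)) = σ / (1 - σ) := by
        have : σ - 1 ≠ 0 := hσ.ne
        have : 1 - σ ≠ 0 := by linarith
        field_simp; ring
      simp only [e]
      rw [abs_of_pos (div_pos h0 (by linarith)), div_lt_one (by linarith)]; linarith)
    have a2 : ∀ᶠ t : ℝ in 𝓝 0, t < 1 / 2 := gt_mem_nhds (by norm_num)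
    exact (((a1.and a2).filter_mono nhdsWithin_le_nhds).and
      (self_mem_nhdsWithin (s := Ioi 0))).exists
  set β := -(1 / 2 + t) * ((1 - t) + (σ + 1) / (σ - 1) / (1 - t)) with hβ
  have hρ : 0 < 1 - t := by linarith
  obtain ⟨M, hM⟩ := exists_sol' (σ := σ) (α := -(1 / 2 + t)) (ρ := 1 - t) (by linarith) hρ.ne'
    (η := (1 - |β|) / 24) (by linarith)
  have hlog : Real.log (1 - t) < 0 := Real.log_neg hρ (by linarith)
  have c1 : ContinuousAt (fun δ : ℝ => |β| + 12 * ((1 - |β|) / 24) + 15 * δ) 0 := by fun_prop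
  have c2 : ContinuousAt (fun δ : ℝ => Real.log (1 - t) + δ * M) 0 := by fun_prop
  have e1 := c1.eventually_lt (continuousAt_const (y := (1 : ℝ))) (by linarith)
  have e2 := c2.eventually_lt (continuousAt_const (y := (0 : ℝ))) (by simpa using hlog)
  obtain ⟨m, ⟨g, s, v, -, hs, hv, a1, a2⟩, a3, a4⟩ :=
    (tendsto_one_div_add_atTop_nhds_zero_nat.eventually (hM.and (e1.and e2))).exists
  exact build h0.ne' hρ (by linarith) (by linarith) (by positivity) (by field_simp) a3 a4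
    hs hv a1 a2

theorem volume_lt {E : Type} [NormedAddCommGroup E] [InnerProductSpace ℝ E] [FiniteDimensional ℝ E]
    [MeasurableSpace E] [BorelSpace E] [Nontrivial E] {D Ω : Set E} (hD : IsDomain D)
    (hΩ : IsDomain Ω) (h : closure D ⊆ Ω) : volume D < volume Ω := by
  have ho : IsOpen (Ω \ closure D) := hΩ.1.sdiff isClosed_closure
  have hne : (Ω \ closure D).Nonempty := by
    rw [nonempty_iff_ne_empty, Ne, sdiff_eq_empty]
    intro h'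
    have e : Ω = closure D := Subset.antisymm h' h
    have hcl : IsClopen Ω := ⟨e ▸ isClosed_closure, hΩ.1⟩
    have := hcl.eq_univ hΩ.2.1.nonempty
    exact NormedSpace.unbounded_univ ℝ E (this ▸ hΩ.2.2.1)
  have hpos : 0 < volume (Ω \ closure D) := ho.measure_pos _ hne
  calc volume D < volume D + volume (Ω \ closure D) :=
        ENNReal.lt_add_right hD.2.2.1.measure_lt_top.ne hpos.ne'
    _ = volume (D ∪ (Ω \ closure D)) := (measure_union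
        (disjoint_sdiff_right.mono_left subset_closure) ho.measurableSet).symm
    _ ≤ volume Ω := measure_mono (union_subset (subset_closure.trans h) sdiff_subset)

theorem main {σ : ℝ} (h0 : 0 < σ) (h1 : σ < 1 / 2) :
    ∃ (D : Set (EuclideanSpace ℝ (Fin 2))) (V₀ : ℝ) (Ω : Set (EuclideanSpace ℝ (Fin 2))),
      IsDomain D ∧ Convex ℝ D ∧ volume D < ENNReal.ofReal V₀ ∧ IsOuterSolution σ D V₀ Ω ∧
        ¬ Convex ℝ Ω := by
  obtain ⟨D, Ω, a1, a2, a3⟩ := exists_complex h0 h1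
  let e : EuclideanSpace ℝ (Fin 2) ≃ₗᵢ[ℝ] ℂ := Complex.orthonormalBasisOneI.repr.symm
  have b := a2.pull e
  have fin : ENNReal.ofReal (volume (e ⁻¹' Ω)).toReal = volume (e ⁻¹' Ω) :=
    ENNReal.ofReal_toReal b.2.1.2.2.1.measure_lt_top.ne
  refine ⟨e ⁻¹' D, (volume (e ⁻¹' Ω)).toReal, e ⁻¹' Ω, b.1, a1.linear_preimage e.toLinearEquiv.toLinearMap,
    by rw [fin]; exact volume_lt b.1 b.2.1 b.2.2.1, ⟨fin.symm, b⟩, fun hc => a3 ?_⟩
  have := hc.linear_preimage e.symm.toLinearEquiv.toLinearMap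
  have e2 : (e.symm.toLinearEquiv.toLinearMap : ℂ → _) ⁻¹' (e ⁻¹' Ω) = Ω := by ext x; simp
  rw [e2] at this
  exact this

end Pool.Agent.Lib.MP_8dfb46_an
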