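import Pool.Agent.Lib.MP_8dfb46_an.Defs
import Pool.Agent.Lib.MP_8dfb46_an.IFT

-- part Pool.Agent.Lib.MP_8dfb46_an.H10
section

/-! A Lipschitz function vanishing outside a bounded open set lies in `H¹₀`. -/

namespace Pool.Agent.Lib.MP_8dfb46_an

open MeasureTheory Filter Topology Set Metric
open scoped ContDiff RealInnerProductSpace Convolution NNReal ENNReal

theorem tendsto_eLpNorm_of_bdd {α F : Type*} [MeasurableSpace α] [NormedAddCommGroup F]
    {μ : Measure α} [IsFiniteMeasure μ] {f : ℕ → α → F} {C : ℝ}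
    (hm : ∀ n, AEStronglyMeasurable (f n) μ) (hb : ∀ n x, ‖f n x‖ ≤ C)
    (hl : ∀ᵐ x ∂μ, Tendsto (fun n => f n x) atTop (𝓝 0)) :
    Tendsto (fun n => eLpNorm (f n) 2 μ) atTop (𝓝 0) := by
  have hui : UnifIntegrable f 2 μ := by
    have hc : UnifIntegrable (fun _ : ℕ => fun _ : α => C) 2 μ :=
      unifIntegrable_const (by norm_num) (by norm_num) (memLp_const C)
    intro ε hε
    obtain ⟨δ, hδ, h⟩ := hc hε
    refine ⟨δ, hδ, fun i s hs hμ => le_trans (eLpNorm_mono fun x => ?_) (h i s hs hμ)⟩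
    by_cases hx : x ∈ s
    · simp only [indicator_of_mem hx]
      exact (hb i x).trans (le_abs_self C)
    · simp [indicator_of_notMem hx]
  have := tendsto_Lp_finite_of_tendsto_ae (p := 2) (g := 0) (by norm_num) (by norm_num) hm
    (MemLp.zero) hui hl
  simpa using this

variable {E : Type} [NormedAddCommGroup E] [InnerProductSpace ℝ E] [FiniteDimensional ℝ E]
  [MeasurableSpace E] [BorelSpace E]

omit [FiniteDimensional ℝ E] [MeasurableSpace E] [BorelSpace E] in
theorem norm_fderiv_le_lip {g : E → ℝ} {K : ℝ≥0} (hg : LipschitzWith K g) (x : E) :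
    ‖fderiv ℝ g x‖ ≤ K := norm_fderiv_le_of_lipschitz ℝ hg

theorem meas_fderiv (g : E → ℝ) : AEStronglyMeasurable (fderiv ℝ g) (volume : Measure E) :=
  (measurable_fderiv ℝ g).aestronglyMeasurable

theorem hasFDerivAt_conv {g : E → ℝ} {K : ℝ≥0} (hg : LipschitzWith K g)
    (φ : ContDiffBump (0 : E)) (x : E) :
    HasFDerivAt (φ.normed volume ⋆[ContinuousLinearMap.lsmul ℝ ℝ, volume] g)
      ((φ.normed volume ⋆[ContinuousLinearMap.lsmul ℝ ℝ, volume] fderiv ℝ g) x) x := by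
  have hφc : Continuous (φ.normed (volume : Measure E)) := φ.continuous_normed
  have hφi : Integrable (φ.normed (volume : Measure E)) volume := φ.integrable_normed
  have hmp : MeasurePreserving (fun a : E => x - a) volume volume :=
    Measure.measurePreserving_sub_left volume x
  have h := hasFDerivAt_integral_of_dominated_loc_of_lip' (μ := (volume : Measure E))
    (F := fun y a => φ.normed volume a • g (y - a))
    (F' := fun a => φ.normed volume a • fderiv ℝ g (x - a)) (x₀ := x) (s := univ)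
    (bound := fun a => φ.normed volume a * K) univ_mem
    (fun y _ => (hφc.smul (hg.continuous.comp (continuous_const.sub continuous_id))).aestronglyMeasurable)
    ((hφc.smul (hg.continuous.comp (continuous_const.sub continuous_id))).integrable_of_hasCompactSupport
      (φ.hasCompactSupport_normed.smul_right))
    (hφc.aestronglyMeasurable.smul ((meas_fderiv g).comp_measurePreserving hmp))
    (Eventually.of_forall fun a y _ => by
      rw [← smul_sub, norm_smul, Real.norm_of_nonneg (φ.nonneg_normed a), mul_assoc]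
      refine mul_le_mul_of_nonneg_left ?_ (φ.nonneg_normed a)
      have := hg.dist_le_mul (y - a) (x - a)
      simpa [dist_eq_norm] using this)
    (hφi.mul_const _)
    (by
      have h1 : ∀ᵐ a ∂(volume : Measure E), DifferentiableAt ℝ g (x - a) :=
        hmp.quasiMeasurePreserving.ae hg.ae_differentiableAt
      filter_upwards [h1] with a ha
      have h2 : HasFDerivAt (fun y => g (y - a)) (fderiv ℝ g (x - a)) x := by
        have := ha.hasFDerivAt.comp x ((hasFDerivAt_id x).sub_const a)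
        rw [ContinuousLinearMap.comp_id] at this
        exact this
      exact h2.const_smul (φ.normed volume a))
  exact h.2

/-- truncation at level `t` -/
def trunc (t s : ℝ) : ℝ := max (s - t) 0 - max (-s - t) 0

theorem trunc_lip (t : ℝ) : LipschitzWith 2 (trunc t) := by
  have h1 : LipschitzWith 1 (fun s : ℝ => max (s - t) 0) :=
    (LipschitzWith.of_dist_le_mul (K := 1) fun a b => by simp [Real.dist_eq]).max_const 0
  have h2 : LipschitzWith 1 (fun s : ℝ => max (-s - t) 0) :=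
    (LipschitzWith.of_dist_le_mul (K := 1) fun a b => by
      simp only [Real.dist_eq, NNReal.coe_one, one_mul]
      rw [abs_sub_comm]; apply le_of_eq; congr 1; ring).max_const 0
  have := h1.sub h2
  norm_num at this
  exact this

theorem trunc_zero {t s : ℝ} (h : |s| ≤ t) : trunc t s = 0 := by
  have := abs_le.1 h
  unfold trunc
  rw [max_eq_right (by linarith), max_eq_right (by linarith)]; simp

theorem trunc_close {t s : ℝ} (ht : 0 ≤ t) : |trunc t s - s| ≤ t := by
  unfold trunc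
  rw [abs_le]
  constructor <;> rcases le_total (s - t) 0 with h | h <;> rcases le_total (-s - t) 0 with h' | h' <;>
    simp only [max_eq_right h, max_eq_left h, max_eq_right h', max_eq_left h'] <;> linarith

theorem ae_fderiv_zero {u : E → ℝ} {K : ℝ≥0} (hu : LipschitzWith K u) :
    ∀ᵐ x ∂(volume : Measure E), u x = 0 → fderiv ℝ u x = 0 := by
  have h1 : LipschitzWith K (fun x => max (u x) 0) := hu.max_const 0
  have h2 : LipschitzWith K (fun x => max (-u x) 0) := hu.neg.max_const 0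
  filter_upwards [h1.ae_differentiableAt (μ := volume), h2.ae_differentiableAt (μ := volume)]
    with x a b hx
  have e : u = fun x => max (u x) 0 - max (-u x) 0 := by
    funext y; rcases le_total (u y) 0 with h | h
    · rw [max_eq_right h, max_eq_left (by linarith)]; ring
    · rw [max_eq_left h, max_eq_right (by linarith)]; ring
  have m1 : IsLocalMin (fun x => max (u x) 0) x :=
    Eventually.of_forall fun y => by simp [hx]
  have m2 : IsLocalMin (fun x => max (-u x) 0) x :=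
    Eventually.of_forall fun y => by simp [hx]
  rw [e, fderiv_fun_sub a b, m1.fderiv_eq_zero, m2.fderiv_eq_zero, sub_zero]

theorem isH10_of_lipschitz {Ω : Set E} (hb : Bornology.IsBounded Ω)
    {u : E → ℝ} {K : ℝ≥0} (hu : LipschitzWith K u) (h0 : ∀ x, x ∉ Ω → u x = 0) :
    IsH10 Ω u (gradient u) := by
  have hfin : volume Ω < ⊤ := hb.measure_lt_top
  have : IsFiniteMeasure (volume.restrict Ω) := ⟨by simpa using hfin⟩
  have hK : (0 : ℝ) ≤ K := K.2
  obtain ⟨M, hM⟩ : ∃ M, ∀ x, |u x| ≤ M := by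
    obtain ⟨M, hM⟩ := (hb.isCompact_closure.image hu.continuous).isBounded.exists_norm_le
    refine ⟨max M 0, fun x => ?_⟩
    by_cases hx : x ∈ Ω
    · exact (hM _ ⟨x, subset_closure hx, rfl⟩).trans (le_max_left _ _)
    · simp [h0 x hx]
  have hgrad : ∀ (g : E → ℝ) x, gradient g x = (InnerProductSpace.toDual ℝ E).symm (fderiv ℝ g x) :=
    fun g x => rfl
  have hgm : ∀ g : E → ℝ, AEStronglyMeasurable (gradient g) (volume.restrict Ω) := fun g =>
    ((InnerProductSpace.toDual ℝ E).symm.continuous.comp_aestronglyMeasurable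
      (meas_fderiv g)).restrict
  refine ⟨MemLp.of_bound hu.continuous.aestronglyMeasurable M (Eventually.of_forall hM),
    MemLp.of_bound (hgm u) K (Eventually.of_forall fun x => by
      rw [hgrad, LinearIsometryEquiv.norm_map]; exact norm_fderiv_le_lip hu x), ?_⟩
  let t : ℕ → ℝ := fun n => 1 / ((n : ℝ) + 1)
  have ht : ∀ n, 0 < t n := fun n => by positivity
  have ht1 : ∀ n, t n ≤ 1 := fun n => by
    simp only [t]; rw [div_le_one (by positivity)]; linarith [Nat.cast_nonneg (α := ℝ) n]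
  have htl : Tendsto t atTop (𝓝 0) := tendsto_one_div_add_atTop_nhds_zero_nat
  let φ : ℕ → ContDiffBump (0 : E) := fun n =>
    ⟨t n / (K + 1) / 2, t n / (K + 1), by have := ht n; positivity,
      by have := ht n; exact half_lt_self (by positivity)⟩
  have hr : ∀ n, (φ n).rOut = t n / (K + 1) := fun n => rfl
  have hrl : Tendsto (fun n => (φ n).rOut) atTop (𝓝 0) := by
    simpa [hr] using htl.div_const ((K : ℝ) + 1)
  have hKr : ∀ n, K * (φ n).rOut + (φ n).rOut = t n := fun n => by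
    rw [hr]; field_simp
  let g : ℕ → E → ℝ := fun n x => trunc (t n) (u x)
  have hg : ∀ n, LipschitzWith (2 * K) (g n) := fun n => (trunc_lip (t n)).comp hu
  let v : ℕ → E → ℝ := fun n =>
    (φ n).normed volume ⋆[ContinuousLinearMap.lsmul ℝ ℝ, volume] g n
  have hclose : ∀ n x (z ε : ℝ), 0 ≤ ε → (∀ y ∈ ball x (φ n).rOut, dist (g n y) z ≤ ε) →
      dist (v n x) z ≤ ε := fun n x z ε hε h =>
    dist_convolution_le hε (φ n).support_normed_eq.subset (φ n).nonneg_normed
      (φ n).integral_normed (hg n).continuous.aestronglyMeasurable h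
  have hclose' : ∀ n x (G : E → E →L[ℝ] ℝ) (z : E →L[ℝ] ℝ) (ε : ℝ), 0 ≤ ε →
      AEStronglyMeasurable G volume → (∀ y ∈ ball x (φ n).rOut, dist (G y) z ≤ ε) →
      dist (((φ n).normed volume ⋆[ContinuousLinearMap.lsmul ℝ ℝ, volume] G) x) z ≤ ε :=
    fun n x G z ε hε hG h =>
    dist_convolution_le hε (φ n).support_normed_eq.subset (φ n).nonneg_normed
      (φ n).integral_normed hG h
  have hud : ∀ n x, ∀ y ∈ ball x (φ n).rOut, |u y - u x| ≤ K * (φ n).rOut := fun n x y hy => by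
    have := hu.dist_le_mul y x
    rw [Real.dist_eq] at this
    exact this.trans (mul_le_mul_of_nonneg_left (mem_ball.1 hy).le hK)
  have hsupp : ∀ n, Function.support (v n) ⊆ {x | (φ n).rOut ≤ |u x|} := fun n x hx => by
    by_contra hc
    simp only [mem_ofPred_eq, not_le] at hc
    apply hx
    have := hclose n x 0 0 le_rfl fun y hy => by
      have h1 := hud n x y hy
      have h2 : |u y| ≤ t n := by
        have := abs_sub_abs_le_abs_sub (u y) (u x)
        linarith [hKr n]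
      simp [g, trunc_zero h2]
    simpa using this
  have hts : ∀ n, tsupport (v n) ⊆ Ω := fun n => by
    refine (closure_minimal (hsupp n) (isClosed_le continuous_const hu.continuous.abs)).trans ?_
    intro x hx
    by_contra hc
    have := (φ n).rOut_pos
    simp only [mem_ofPred_eq, h0 x hc, abs_zero] at hx
    linarith
  have hsm : ∀ n, ContDiff ℝ ∞ (v n) := fun n =>
    (φ n).hasCompactSupport_normed.contDiff_convolution_left _ (φ n).contDiff_normed
      (hg n).continuous.locallyIntegrable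
  have hfd : ∀ n x, fderiv ℝ (v n) x =
      ((φ n).normed volume ⋆[ContinuousLinearMap.lsmul ℝ ℝ, volume] fderiv ℝ (g n)) x :=
    fun n x => (hasFDerivAt_conv (hg n) (φ n) x).fderiv
  have hvu : ∀ n x, |v n x - u x| ≤ 2 * t n := fun n x => by
    have := hclose n x (u x) (2 * t n) (by linarith [ht n]) fun y hy => by
      have h1 := hud n x y hy
      have h2 : |g n y - u y| ≤ t n := trunc_close (ht n).le
      have h3 := abs_sub_le (g n y) (u y) (u x)
      rw [Real.dist_eq]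
      linarith [hKr n, (φ n).rOut_pos]
    rwa [Real.dist_eq] at this
  refine ⟨v, fun n => ⟨hsm n, ?_, hts n⟩, ?_, ?_⟩
  · exact Metric.isCompact_of_isClosed_isBounded (isClosed_tsupport _) (hb.subset (hts n))
  · refine tendsto_eLpNorm_of_bdd (C := 2)
      (fun n => ((hsm n).continuous.sub hu.continuous).aestronglyMeasurable)
      (fun n x => (hvu n x).trans (by linarith [ht1 n])) (Eventually.of_forall fun x => ?_)
    refine squeeze_zero_norm (fun n => hvu n x) ?_
    simpa using htl.const_mul 2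
  · refine tendsto_eLpNorm_of_bdd (C := 2 * K + K) (fun n => (hgm _).sub (hgm _)) (fun n x => ?_) ?_
    · rw [hgrad, hgrad, ← map_sub, LinearIsometryEquiv.norm_map]
      refine (norm_sub_le _ _).trans (add_le_add ?_ (norm_fderiv_le_lip hu x))
      rw [hfd]
      have := hclose' n x (fderiv ℝ (g n)) 0 (2 * K) (by positivity) (meas_fderiv _) fun y _ => by
        simpa using norm_fderiv_le_lip (hg n) y
      simpa using this
    · have hli : LocallyIntegrable (fderiv ℝ u) (volume : Measure E) := by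
        refine (MemLp.locallyIntegrable (p := ⊤) ?_ le_top)
        exact memLp_top_of_bound (meas_fderiv u) K (Eventually.of_forall (norm_fderiv_le_lip hu))
      have hae := ContDiffBump.ae_convolution_tendsto_right_of_locallyIntegrable
        (μ := (volume : Measure E)) (K := 2) hrl
        (Eventually.of_forall fun n => by simp only [φ]; linarith) hli
      refine ae_restrict_of_ae ?_
      filter_upwards [hae, ae_fderiv_zero hu] with x hx hz
      suffices h : Tendsto (fun n => fderiv ℝ (v n) x) atTop (𝓝 (fderiv ℝ u x)) by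
        have := ((InnerProductSpace.toDual ℝ E).symm.continuous.tendsto _).comp h
        simpa [hgrad] using this.sub_const ((InnerProductSpace.toDual ℝ E).symm (fderiv ℝ u x))
      by_cases hx0 : u x = 0
      · rw [hz hx0]
        refine tendsto_const_nhds.congr fun n => ?_
        rw [hfd]
        have := hclose' n x (fderiv ℝ (g n)) 0 0 le_rfl (meas_fderiv _) fun y hy => by
          have h1 := hud n x y hy
          rw [hx0, sub_zero] at h1
          have h2 : |u y| < t n := by linarith [hKr n, (φ n).rOut_pos]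
          have h3 : g n =ᶠ[𝓝 y] fun _ => 0 := by
            filter_upwards [hu.continuous.abs.continuousAt.eventually_lt continuousAt_const h2]
              with z hz
            exact trunc_zero hz.le
          simp [h3.fderiv_eq]
        exact (by simpa using this : _ = _).symm
      · refine hx.congr' ?_
        have hp : 0 < |u x| / 2 := by positivity
        filter_upwards [htl.eventually (gt_mem_nhds hp)] with n hn
        rw [hfd]
        unfold convolution
        refine integral_congr_ae (Eventually.of_forall fun a => ?_)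
        by_cases ha : a ∈ ball (0 : E) (φ n).rOut
        · have hy : x - a ∈ ball x (φ n).rOut := by simpa using ha
          have h1 := hud n x _ hy
          have h2 : t n < |u (x - a)| := by
            have := abs_sub_abs_le_abs_sub (u x) (u (x - a))
            rw [abs_sub_comm] at this
            linarith [hKr n, (φ n).rOut_pos]
          simp only
          congr 1
          rcases lt_abs.1 h2 with h3 | h3
          · have h4 : g n =ᶠ[𝓝 (x - a)] fun z => u z - t n := by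
              filter_upwards [continuousAt_const.eventually_lt hu.continuous.continuousAt h3]
                with z hz
              simp only [g, trunc]
              rw [max_eq_left (by linarith), max_eq_right (by linarith [ht n])]; ring
            rw [h4.fderiv_eq, fderiv_sub_const]
          · have h4 : g n =ᶠ[𝓝 (x - a)] fun z => u z + t n := by
              filter_upwards [continuousAt_const.eventually_lt hu.continuous.neg.continuousAt h3]
                with z hz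
              simp only [g, trunc]
              simp only [Pi.neg_apply] at hz
              rw [max_eq_right (by linarith [ht n]), max_eq_left (by linarith)]; ring
            rw [h4.fderiv_eq, fderiv_add_const]
        · have : (φ n).normed volume a = 0 := by
            rw [← (φ n).support_normed_eq (μ := volume)] at ha
            simpa using ha
          simp [this]

end Pool.Agent.Lib.MP_8dfb46_an
end

-- part Pool.Agent.Lib.MP_8dfb46_an.Transfer
section

/-! Transport of solutions along linear isometries, and uniqueness of the normal. -/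

set_option linter.unusedSectionVars false

namespace Pool.Agent.Lib.MP_8dfb46_an

open MeasureTheory Filter Topology Set Metric
open scoped ContDiff RealInnerProductSpace

variable {E : Type} [NormedAddCommGroup E] [InnerProductSpace ℝ E] [FiniteDimensional ℝ E]
  [MeasurableSpace E] [BorelSpace E]
variable {F : Type} [NormedAddCommGroup F] [InnerProductSpace ℝ F] [FiniteDimensional ℝ F]
  [MeasurableSpace F] [BorelSpace F]

theorem inner_gradient (f : E → ℝ) (x y : E) : ⟪gradient f x, y⟫ = fderiv ℝ f x y := by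
  simp [gradient]

theorem fderiv_comp_iso (e : F ≃ₗᵢ[ℝ] E) (f : E → ℝ) (x y : F) :
    fderiv ℝ (f ∘ e) x y = fderiv ℝ f (e x) (e y) := by
  have := e.toContinuousLinearEquiv.comp_right_fderiv (f := f) (x := x)
  exact congrArg (fun L => L y) this

theorem gradient_comp_iso (e : F ≃ₗᵢ[ℝ] E) (f : E → ℝ) (x : F) :
    gradient (f ∘ e) x = e.symm (gradient f (e x)) := by
  apply ext_inner_right ℝ
  intro y
  rw [inner_gradient, fderiv_comp_iso, ← inner_gradient, ← e.inner_map_map, e.apply_symm_apply]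

theorem IsDefiningAt.pull (e : F ≃ₗᵢ[ℝ] E) {Ω : Set E} {p : F} {ρ : E → ℝ}
    (h : IsDefiningAt Ω (e p) ρ) : IsDefiningAt (e ⁻¹' Ω) p (ρ ∘ e) := by
  obtain ⟨U, hU, hp, hs, hg, hm⟩ := h
  refine ⟨e ⁻¹' U, hU.preimage e.continuous, hp, hs.comp e.contDiff.contDiffOn fun x hx => hx, ?_,
    fun x hx => hm (e x) hx⟩
  rw [gradient_comp_iso]
  simpa using hg

theorem frontier_pull (e : F ≃ₗᵢ[ℝ] E) (Ω : Set E) : frontier (e ⁻¹' Ω) = e ⁻¹' frontier Ω :=
  (e.toHomeomorph.preimage_frontier Ω).symm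

theorem IsDomain.pull (e : F ≃ₗᵢ[ℝ] E) {Ω : Set E} (h : IsDomain Ω) : IsDomain (e ⁻¹' Ω) := by
  obtain ⟨h1, h2, h3, h4⟩ := h
  refine ⟨h1.preimage e.continuous, e.toHomeomorph.isConnected_preimage.2 h2,
    e.isometry.antilipschitz.isBounded_preimage h3, fun p hp => ?_⟩
  rw [frontier_pull] at hp
  obtain ⟨ρ, hρ⟩ := h4 _ hp
  exact ⟨_, hρ.pull e⟩

theorem IsTest.pull (e : F ≃ₗᵢ[ℝ] E) {Ω : Set E} {v : E → ℝ} (h : IsTest Ω v) :
    IsTest (e ⁻¹' Ω) (v ∘ e) := by
  obtain ⟨h1, h2, h3⟩ := h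
  refine ⟨h1.comp e.contDiff, h2.comp_homeomorph e.toHomeomorph, ?_⟩
  have : tsupport (v ∘ e) = e ⁻¹' tsupport v := tsupport_comp_eq_preimage v e.toHomeomorph
  rw [this]
  exact preimage_mono h3

theorem mp_pull (e : F ≃ₗᵢ[ℝ] E) (Ω : Set E) :
    MeasurePreserving e (volume.restrict (e ⁻¹' Ω)) (volume.restrict Ω) :=
  e.measurePreserving.restrict_preimage_emb e.toHomeomorph.measurableEmbedding Ω

theorem IsH10.pull (e : F ≃ₗᵢ[ℝ] E) {Ω : Set E} {u : E → ℝ} {G : E → E} (h : IsH10 Ω u G) :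
    IsH10 (e ⁻¹' Ω) (u ∘ e) (e.symm ∘ G ∘ e) := by
  obtain ⟨h1, h2, v, hv, h3, h4⟩ := h
  have hmp := mp_pull e Ω
  have hme : MeasurableEmbedding e := e.toHomeomorph.measurableEmbedding
  refine ⟨h1.comp_measurePreserving hmp,
    e.symm.toContinuousLinearEquiv.toContinuousLinearMap.comp_memLp' (h2.comp_measurePreserving hmp),
    fun n => v n ∘ e, fun n => (hv n).pull e, ?_, ?_⟩
  · refine h3.congr fun n => ?_
    rw [← hmp.map_eq, hme.eLpNorm_map_measure]
    rfl
  · refine h4.congr fun n => ?_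
    rw [← hmp.map_eq, hme.eLpNorm_map_measure]
    refine eLpNorm_congr_norm_ae (Eventually.of_forall fun x => ?_)
    simp only [Function.comp_apply, gradient_comp_iso]
    rw [← map_sub, LinearIsometryEquiv.norm_map]

theorem IsSolution.pull (e : F ≃ₗᵢ[ℝ] E) {σ : ℝ} {D Ω : Set E} (h : IsSolution σ D Ω) :
    IsSolution σ (e ⁻¹' D) (e ⁻¹' Ω) := by
  obtain ⟨h1, h2, h3, c, u, G, h4, h5, W, w, h6, h7, h8, h9, h10⟩ := h
  have hme : MeasurableEmbedding e := e.toHomeomorph.measurableEmbedding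
  refine ⟨h1.pull e, h2.pull e, ?_, c, u ∘ e, e.symm ∘ G ∘ e, h4.pull e, fun v hv => ?_,
    e ⁻¹' W, w ∘ e, h6.preimage e.continuous, ?_, h8.comp e.contDiff.contDiffOn fun x hx => hx,
    ?_, fun p hp => ?_⟩
  · have : closure (e ⁻¹' D) = e ⁻¹' closure D := (e.toHomeomorph.preimage_closure D).symm
    rw [this]; exact preimage_mono h3
  · have hv' : IsTest Ω (v ∘ e.symm) := by
      have := hv.pull e.symm
      rwa [preimage_preimage, show (fun x => e (e.symm x)) = id from funext e.apply_symm_apply,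
        preimage_id] at this
    have := h5 _ hv'
    rw [← (mp_pull e Ω).integral_comp hme, ← (mp_pull e Ω).integral_comp hme] at this
    simp only [Function.comp_apply, e.symm_apply_apply] at this ⊢
    rw [← this]
    congr 1
    funext x
    rw [gradient_comp_iso, e.symm_apply_apply, LinearIsometryEquiv.symm_symm,
      ← e.inner_map_map, e.apply_symm_apply]
    rfl
  · rw [frontier_pull]; exact preimage_mono h7
  · rw [← preimage_inter]
    exact (mp_pull e (Ω ∩ W)).quasiMeasurePreserving.ae h9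
  · rw [frontier_pull] at hp
    refine ⟨(h10 _ hp).1, fun ρ hρ => ?_⟩
    have hρ' : IsDefiningAt Ω (e p) (ρ ∘ e.symm) := by
      have := IsDefiningAt.pull e.symm (p := e p) (by rw [e.symm_apply_apply]; exact hρ)
      rwa [preimage_preimage, show (fun x => e (e.symm x)) = id from funext e.apply_symm_apply,
        preimage_id] at this
    have := (h10 _ hp).2 _ hρ'
    rw [gradient_comp_iso, e.symm_apply_apply, LinearIsometryEquiv.symm_symm,
      LinearIsometryEquiv.norm_map] at this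
    rw [fderiv_comp_iso, map_smul, this]

theorem IsDefiningAt.zero {Ω : Set E} {p : E} {ρ : E → ℝ} (ho : IsOpen Ω) (hp : p ∈ frontier Ω)
    (h : IsDefiningAt Ω p ρ) : ρ p = 0 := by
  obtain ⟨U, hU, hpU, hs, -, hm⟩ := h
  rw [ho.frontier_eq] at hp
  have h1 : 0 ≤ ρ p := not_lt.1 fun hc => hp.2 ((hm p hpU).2 hc)
  refine le_antisymm (not_lt.1 fun hc => ?_) h1
  have hc' : ∀ᶠ x in 𝓝 p, 0 < ρ x :=
    continuousAt_const.eventually_lt (hs.continuousOn.continuousAt (hU.mem_nhds hpU)) hc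
  obtain ⟨x, hx, hxΩ⟩ := mem_closure_iff_nhds.1 hp.1 _ (inter_mem hc' (hU.mem_nhds hpU))
  exact absurd ((hm x hx.2).1 hxΩ) (not_lt.2 hx.1.le)

theorem IsDefiningAt.halfspace {Ω : Set E} {p : E} {ρ τ : E → ℝ} (ho : IsOpen Ω)
    (hp : p ∈ frontier Ω) (h : IsDefiningAt Ω p ρ) (h' : IsDefiningAt Ω p τ) (y : E)
    (hy : ⟪gradient ρ p, y⟫ < 0) : ⟪gradient τ p, y⟫ ≤ 0 := by
  have z1 := h.zero ho hp
  have z2 := h'.zero ho hp
  obtain ⟨U, hU, hpU, hs, -, hm⟩ := h
  obtain ⟨V, hV, hpV, hs', -, hm'⟩ := h'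
  have line : ∀ {f : E → ℝ} {W : Set E}, IsOpen W → p ∈ W → ContDiffOn ℝ ∞ f W → f p = 0 →
      Tendsto (fun t : ℝ => t⁻¹ * f (p + t • y)) (𝓝[>] 0) (𝓝 ⟪gradient f p, y⟫) := by
    intro f W hW hpW hf hz
    have hd : DifferentiableAt ℝ f p :=
      (hf.contDiffAt (hW.mem_nhds hpW)).differentiableAt (by simp)
    have h1 : HasDerivAt (fun t : ℝ => f (p + t • y)) (fderiv ℝ f p y) 0 :=
      hd.hasFDerivAt.hasLineDerivAt y
    have h2 := h1.tendsto_slope_zero_right
    simpa [hz, inner_gradient] using h2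
  have hc : Tendsto (fun t : ℝ => p + t • y) (𝓝[>] 0) (𝓝 p) := by
    have : Continuous fun t : ℝ => p + t • y := by fun_prop
    simpa using (this.tendsto 0).mono_left nhdsWithin_le_nhds
  refine le_of_tendsto (line hV hpV hs' z2) ?_
  filter_upwards [(line hU hpU hs z1).eventually (gt_mem_nhds hy), hc (hU.mem_nhds hpU),
    hc (hV.mem_nhds hpV), self_mem_nhdsWithin] with t h1 h2 h3 h4
  have h4' : 0 < t⁻¹ := inv_pos.2 h4
  have h5 : ρ (p + t • y) < 0 := by
    by_contra hcon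
    exact absurd h1 (not_lt.2 (mul_nonneg h4'.le (not_lt.1 hcon)))
  exact mul_nonpos_of_nonneg_of_nonpos h4'.le ((hm' _ h3).1 ((hm _ h2).2 h5)).le

theorem IsDefiningAt.normal_unique {Ω : Set E} {p : E} {ρ τ : E → ℝ} (ho : IsOpen Ω)
    (hp : p ∈ frontier Ω) (h : IsDefiningAt Ω p ρ) (h' : IsDefiningAt Ω p τ) :
    ‖gradient ρ p‖⁻¹ • gradient ρ p = ‖gradient τ p‖⁻¹ • gradient τ p := by
  have key := h.halfspace ho hp h'
  obtain ⟨-, -, -, -, ha, -⟩ := h
  obtain ⟨-, -, -, -, hb, -⟩ := h'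
  set a := gradient ρ p
  set b := gradient τ p
  have na : 0 < ‖a‖ := norm_pos_iff.2 ha
  have nb : 0 < ‖b‖ := norm_pos_iff.2 hb
  by_contra hne
  set a' := ‖a‖⁻¹ • a with ha'
  set b' := ‖b‖⁻¹ • b with hb'
  have h1 : ‖a'‖ = 1 := by rw [ha', norm_smul, norm_inv, norm_norm, inv_mul_cancel₀ na.ne']
  have h2 : ‖b'‖ = 1 := by rw [hb', norm_smul, norm_inv, norm_norm, inv_mul_cancel₀ nb.ne']
  have h3 : ⟪a', b'⟫ < 1 := (inner_lt_one_iff_real_of_norm_eq_one h1 h2).2 hne
  have ea : a = ‖a‖ • a' := by rw [ha', smul_smul, mul_inv_cancel₀ na.ne', one_smul]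
  have eb : b = ‖b‖ • b' := by rw [hb', smul_smul, mul_inv_cancel₀ nb.ne', one_smul]
  have h4 := key (b' - a') (by
    rw [ea, inner_smul_left, inner_sub_right, real_inner_self_eq_norm_sq, h1]
    simp only [conj_trivial]
    exact mul_neg_of_pos_of_neg na (by linarith))
  rw [eb, inner_smul_left, inner_sub_right, real_inner_self_eq_norm_sq, h2, real_inner_comm] at h4
  simp only [conj_trivial] at h4
  have := mul_pos nb (show 0 < 1 ^ 2 - ⟪a', b'⟫ by linarith)
  linarith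

end Pool.Agent.Lib.MP_8dfb46_an
end

-- part Pool.Agent.Lib.MP_8dfb46_an.Weak
section

/-! Assembling a weak solution in the plane from two holomorphic potentials. -/

namespace Pool.Agent.Lib.MP_8dfb46_an

open MeasureTheory Filter Topology Set Metric Complex
open scoped ContDiff RealInnerProductSpace NNReal ComplexConjugate

theorem exists_frontier_segment {S : Set ℂ} {x y : ℂ} (hx : x ∈ S) (hy : y ∉ S) :
    ∃ z ∈ segment ℝ x y, z ∈ frontier S := by
  by_contra hc
  push Not at hc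
  have hpre : IsPreconnected (segment ℝ x y) := (convex_segment x y).isPreconnected
  have hsub : segment ℝ x y ⊆ interior S ∪ (closure S)ᶜ := fun z hz => by
    have := hc z hz
    by_cases h : z ∈ closure S
    · left; by_contra h'; exact this ⟨h, h'⟩
    · right; exact h
  have hdisj : Disjoint (interior S) (closure S)ᶜ :=
    disjoint_compl_right_iff_subset.2 interior_subset_closure
  rcases hpre.subset_or_subset isOpen_interior isClosed_closure.isOpen_compl hdisj hsub with h | h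
  · exact hy (interior_subset (h (right_mem_segment ℝ x y)))
  · exact h (left_mem_segment ℝ x y) (subset_closure hx)

open Classical in
theorem lip_glue {S : Set ℂ} {a b : ℂ → ℝ} {K L : ℝ≥0} (ha : LipschitzWith K a)
    (hb : LipschitzWith L b) (h : ∀ z ∈ frontier S, a z = b z) :
    LipschitzWith (K + L) (fun x => if x ∈ S then a x else b x) := by
  have hK : (0 : ℝ) ≤ K := K.2
  have hL : (0 : ℝ) ≤ L := L.2
  have key : ∀ x y, x ∈ S → y ∉ S → dist (a x) (b y) ≤ (K + L : ℝ) * dist x y := by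
    intro x y hx hy
    obtain ⟨z, hz, hzf⟩ := exists_frontier_segment hx hy
    have h1 := dist_add_dist_of_mem_segment hz
    have h2 := ha.dist_le_mul x z
    have h3 := hb.dist_le_mul z y
    have h4 := dist_triangle (a x) (a z) (b y)
    rw [h z hzf] at h4 h2
    have := dist_nonneg (x := x) (y := z)
    have := dist_nonneg (x := z) (y := y)
    nlinarith
  refine LipschitzWith.of_dist_le_mul fun x y => ?_
  have hd := dist_nonneg (x := x) (y := y)
  push_cast
  by_cases hx : x ∈ S <;> by_cases hy : y ∈ S <;> simp only [hx, hy, if_true, if_false]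
  · have := ha.dist_le_mul x y; nlinarith
  · exact key x y hx hy
  · rw [dist_comm, dist_comm x y]; exact key y x hy hx
  · have := hb.dist_le_mul x y; nlinarith

theorem exists_lip_ext {f : ℂ → ℝ} {O T : Set ℂ} (hO : IsOpen O) (hT : IsCompact T) (hTO : T ⊆ O)
    (hf : ContDiffOn ℝ ∞ f O) : ∃ (g : ℂ → ℝ) (K : ℝ≥0), LipschitzWith K g ∧ ∀ x ∈ T, g x = f x := by
  have h1 : LocallyLipschitzOn T f := fun x hx => by
    obtain ⟨K, t, ht, h⟩ := ((hf.contDiffAt (hO.mem_nhds (hTO hx))).of_le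
      (show (1 : WithTop ℕ∞) ≤ ∞ by simp)).exists_lipschitzOnWith
    exact ⟨K, t, mem_nhdsWithin_of_mem_nhds ht, h⟩
  obtain ⟨K, hK⟩ := h1.exists_lipschitzOnWith_of_compact hT
  obtain ⟨g, hg, he⟩ := hK.extend_real
  exact ⟨g, K, hg, fun x hx => (he hx).symm⟩

theorem ibp {f g : ℂ → ℝ} {K : ℝ≥0} (hf : LipschitzWith K f) (hg : ContDiff ℝ ∞ g)
    (hc : HasCompactSupport g) (e : ℂ) :
    ∫ x, lineDeriv ℝ f x e * g x = -∫ x, fderiv ℝ g x e * f x := by
  obtain ⟨C, hC⟩ := ContDiff.lipschitzWith_of_hasCompactSupport hc hg (by simp)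
  rw [hf.integral_lineDeriv_mul_eq hC hc e, ← integral_neg]
  congr 1
  funext x
  rw [(hg.differentiable (by simp) x).lineDeriv_eq_fderiv]
  simp

theorem weak_core {Ψ v : ℂ → ℝ} {K : ℝ≥0} (hΨ : LipschitzWith K Ψ) (hv : ContDiff ℝ ∞ v)
    (hc : HasCompactSupport v) :
    ∫ x, (lineDeriv ℝ Ψ x I * fderiv ℝ v x 1 - lineDeriv ℝ Ψ x 1 * fderiv ℝ v x I
      - (fderiv ℝ v x 1 * x.re + fderiv ℝ v x I * x.im) / 2) = ∫ x, v x := by
  have hd : ∀ e : ℂ, ContDiff ℝ ∞ fun x => fderiv ℝ v x e := fun e =>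
    (hv.fderiv_right (m := ∞) (by simp)).clm_apply contDiff_const
  have hdc : ∀ e : ℂ, HasCompactSupport fun x => fderiv ℝ v x e := fun e =>
    hc.fderiv_apply (𝕜 := ℝ) e
  have hi : ∀ e e' : ℂ, Integrable fun x => lineDeriv ℝ Ψ x e * fderiv ℝ v x e' := fun e e' =>
    (hΨ.memLp_lineDeriv (μ := volume) e).integrable_mul
      (memLp_one_iff_integrable.2 ((hd e').continuous.integrable_of_hasCompactSupport (hdc e')))
  have hi1 : Integrable fun x : ℂ => fderiv ℝ v x 1 * x.re :=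
    ((hd 1).continuous.mul continuous_re).integrable_of_hasCompactSupport (hdc 1).mul_right
  have hi2 : Integrable fun x : ℂ => fderiv ℝ v x I * x.im :=
    ((hd I).continuous.mul continuous_im).integrable_of_hasCompactSupport (hdc I).mul_right
  have i1 : Integrable fun x : ℂ => lineDeriv ℝ Ψ x I * fderiv ℝ v x 1
      - lineDeriv ℝ Ψ x 1 * fderiv ℝ v x I := (hi _ _).sub (hi _ _)
  have i2 : Integrable fun x : ℂ => (fderiv ℝ v x 1 * x.re + fderiv ℝ v x I * x.im) / 2 :=
    (hi1.add hi2).div_const 2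
  rw [integral_sub i1 i2, integral_sub (hi _ _) (hi _ _),
    integral_div, integral_add hi1 hi2, ibp hΨ (hd 1) (hdc 1), ibp hΨ (hd I) (hdc I)]
  have hsym : ∀ x, fderiv ℝ (fun x => fderiv ℝ v x 1) x I = fderiv ℝ (fun x => fderiv ℝ v x I) x 1 := by
    intro x
    have h2 : DifferentiableAt ℝ (fderiv ℝ v) x :=
      (hv.fderiv_right (m := ∞) (by simp)).differentiable (by simp) x
    have hs : IsSymmSndFDerivAt ℝ v x := hv.contDiffAt.isSymmSndFDerivAt (by simpa using (show (2 : WithTop ℕ∞) ≤ ∞ by decide))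
    rw [fderiv_clm_apply h2 (differentiableAt_const _), fderiv_clm_apply h2 (differentiableAt_const _)]
    simpa using hs I 1
  simp only [hsym]
  have e1 := ibp reCLM.lipschitz hv hc 1
  have e2 := ibp imCLM.lipschitz hv hc I
  simp only [reCLM.differentiableAt.lineDeriv_eq_fderiv, imCLM.differentiableAt.lineDeriv_eq_fderiv,
    ContinuousLinearMap.fderiv, reCLM_apply, imCLM_apply, one_re, I_im, one_mul] at e1 e2
  linarith

theorem hasFDerivAt_re {B : ℂ → ℂ} {z : ℂ} (h : DifferentiableAt ℂ B z) :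
    DifferentiableAt ℝ (fun z => (B z).re) z ∧
      ∀ y, fderiv ℝ (fun z => (B z).re) z y = (deriv B z * y).re := by
  have := reCLM.hasFDerivAt.comp z (h.hasDerivAt.hasFDerivAt.restrictScalars ℝ)
  refine ⟨this.differentiableAt, fun y => ?_⟩
  have e := this.fderiv
  change fderiv ℝ (fun z => (B z).re) z = _ at e
  rw [e]; simp [mul_comm]

theorem hasFDerivAt_im {B : ℂ → ℂ} {z : ℂ} (h : DifferentiableAt ℂ B z) :
    DifferentiableAt ℝ (fun z => (B z).im) z ∧
      ∀ y, fderiv ℝ (fun z => (B z).im) z y = (deriv B z * y).im := by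
  have := imCLM.hasFDerivAt.comp z (h.hasDerivAt.hasFDerivAt.restrictScalars ℝ)
  refine ⟨this.differentiableAt, fun y => ?_⟩
  have e := this.fderiv
  change fderiv ℝ (fun z => (B z).im) z = _ at e
  rw [e]; simp [mul_comm]

theorem fderiv_pot {B : ℂ → ℂ} {z : ℂ} (h : DifferentiableAt ℂ B z) :
    DifferentiableAt ℝ (fun z => (B z).re - ‖z‖ ^ 2 / 4) z ∧
    ∀ y, fderiv ℝ (fun z => (B z).re - ‖z‖ ^ 2 / 4) z y =
      (deriv B z * y).re - (z.re * y.re + z.im * y.im) / 2 := by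
  obtain ⟨h1, h2⟩ := hasFDerivAt_re h
  have h3 := (hasStrictFDerivAt_norm_sq z).hasFDerivAt.mul_const (1 / 4 : ℝ)
  have h4 := h1.hasFDerivAt.sub h3
  have e : (fun z => (B z).re - ‖z‖ ^ 2 / 4) = (fun z => (B z).re) - fun z => ‖z‖ ^ 2 * (1 / 4) := by
    funext z; simp; ring
  rw [e]
  refine ⟨h4.differentiableAt, fun y => ?_⟩
  rw [h4.fderiv]
  simp [h2]
  ring

theorem contDiffOn_hol {B : ℂ → ℂ} {O : Set ℂ} (hO : IsOpen O) (h : DifferentiableOn ℂ B O) :
    ContDiffOn ℝ ∞ B O := (h.contDiffOn hO).restrict_scalars ℝ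

theorem assemble {σ c : ℝ} (hσ : σ ≠ 0) {D Ω O₁ O₂ : Set ℂ} (hD : IsDomain D) (hΩ : IsDomain Ω)
    (hDΩ : closure D ⊆ Ω) (hconv : Convex ℝ D) {A B : ℂ → ℂ} (hO₁ : IsOpen O₁) (hO₂ : IsOpen O₂)
    (h1 : closure D ⊆ O₁) (h2 : closure Ω \ D ⊆ O₂) (hA : DifferentiableOn ℂ A O₁)
    (hB : DifferentiableOn ℂ B O₂)
    (hre : ∀ z ∈ frontier D, ((A z).re - ‖z‖ ^ 2 / 4) / σ = (B z).re - ‖z‖ ^ 2 / 4)
    (him : ∀ z ∈ frontier D, (A z).im = (B z).im)
    (hb0 : ∀ z ∈ frontier Ω, (B z).re = ‖z‖ ^ 2 / 4)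
    (hbn : ∀ p ∈ frontier Ω, ∃ ρ, IsDefiningAt Ω p ρ ∧
      conj (deriv B p) - p / 2 = c • (‖gradient ρ p‖⁻¹ • gradient ρ p)) :
    IsSolution σ D Ω := by
  classical
  have hDo := hD.1
  have hΩo := hΩ.1
  have hT₁ : IsCompact (closure D) := hD.2.2.1.isCompact_closure
  have hT₂ : IsCompact (closure Ω \ D) := hΩ.2.2.1.isCompact_closure.diff hDo
  have sA := contDiffOn_hol hO₁ hA
  have sB := contDiffOn_hol hO₂ hB
  have sn : ContDiff ℝ ∞ fun z : ℂ => ‖z‖ ^ 2 / 4 := (contDiff_norm_sq ℝ).div_const 4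
  have sw : ContDiffOn ℝ ∞ (fun z => (B z).re - ‖z‖ ^ 2 / 4) O₂ :=
    (reCLM.contDiff.comp_contDiffOn sB).sub sn.contDiffOn
  obtain ⟨a₁, K₁, la₁, ea₁⟩ := exists_lip_ext hO₁ hT₁ h1
    (((reCLM.contDiff.comp_contDiffOn sA).sub sn.contDiffOn).div_const σ)
  obtain ⟨b₁, L₁, lb₁, eb₁⟩ := exists_lip_ext hO₂ hT₂ h2 sw
  obtain ⟨a₂, K₂, la₂, ea₂⟩ := exists_lip_ext hO₁ hT₁ h1 (imCLM.contDiff.comp_contDiffOn sA)
  obtain ⟨b₂, L₂, lb₂, eb₂⟩ := exists_lip_ext hO₂ hT₂ h2 (imCLM.contDiff.comp_contDiffOn sB)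
  simp only [Function.comp_apply, reCLM_apply, imCLM_apply] at ea₁ ea₂ eb₂
  have fD : ∀ z ∈ frontier D, z ∈ closure D ∧ z ∈ closure Ω \ D := fun z hz => by
    rw [hDo.frontier_eq] at hz
    exact ⟨hz.1, subset_closure (hDΩ hz.1), hz.2⟩
  have fΩ : ∀ z ∈ frontier Ω, z ∉ Ω ∧ z ∈ closure Ω \ D := fun z hz => by
    rw [hΩo.frontier_eq] at hz
    exact ⟨hz.2, hz.1, fun h => hz.2 (hDΩ (subset_closure h))⟩
  have lu₀ := lip_glue (S := D) la₁ lb₁ fun z hz => by
    rw [ea₁ z (fD z hz).1, eb₁ z (fD z hz).2, hre z hz]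
  have lΨ := lip_glue (S := D) la₂ lb₂ fun z hz => by
    rw [ea₂ z (fD z hz).1, eb₂ z (fD z hz).2, him z hz]
  set u₀ : ℂ → ℝ := fun x => if x ∈ D then a₁ x else b₁ x with hu₀
  set Ψ : ℂ → ℝ := fun x => if x ∈ D then a₂ x else b₂ x with hΨ
  have lu := lip_glue (S := Ω) lu₀ (LipschitzWith.const (0 : ℝ)) fun z hz => by
    simp only [hu₀, if_neg (fΩ z hz).2.2]
    rw [eb₁ z (fΩ z hz).2, hb0 z hz, sub_self]
  set u : ℂ → ℝ := fun x => if x ∈ Ω then u₀ x else 0 with hu
  have inD : ∀ x ∈ D, u x = ((A x).re - ‖x‖ ^ 2 / 4) / σ ∧ Ψ x = (A x).im := fun x hx => by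
    simp only [hu, hu₀, hΨ, if_pos hx, if_pos (hDΩ (subset_closure hx))]
    exact ⟨ea₁ x (subset_closure hx), ea₂ x (subset_closure hx)⟩
  have outD : ∀ x ∈ Ω \ closure D, u x = (B x).re - ‖x‖ ^ 2 / 4 ∧ Ψ x = (B x).im := fun x hx => by
    have hx' : x ∉ D := fun h => hx.2 (subset_closure h)
    simp only [hu, hu₀, hΨ, if_neg hx', if_pos hx.1]
    exact ⟨eb₁ x ⟨subset_closure hx.1, hx'⟩, eb₂ x ⟨subset_closure hx.1, hx'⟩⟩
  refine ⟨hD, hΩ, hDΩ, c, u, gradient u, isH10_of_lipschitz hΩ.2.2.1 lu fun x hx => by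
    simp only [hu, if_neg hx], fun v hv => ?_, O₂ \ closure D, fun z => (B z).re - ‖z‖ ^ 2 / 4,
    hO₂.sdiff isClosed_closure, fun z hz => ⟨h2 (fΩ z hz).2, fun h => (fΩ z hz).1 (hDΩ h)⟩,
    sw.mono sdiff_subset, ?_, fun p hp => ⟨by simp only [hb0 p hp, sub_self], fun ρ hρ => ?_⟩⟩
  · obtain ⟨hv1, hv2, hv3⟩ := hv
    have z1 : ∀ x, x ∉ Ω → fderiv ℝ v x = 0 := fun x hx =>
      fderiv_of_notMem_tsupport ℝ fun h => hx (hv3 h)
    have z2 : ∀ x, x ∉ Ω → v x = 0 := fun x hx =>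
      image_eq_zero_of_notMem_tsupport fun h => hx (hv3 h)
    rw [setIntegral_eq_integral_of_forall_compl_eq_zero z2, ← weak_core lΨ hv1 hv2]
    refine Eq.trans ?_ (setIntegral_eq_integral_of_forall_compl_eq_zero (s := Ω)
      fun x hx => by simp [z1 x hx])
    refine setIntegral_congr_ae hΩo.measurableSet ?_
    have hnull : ∀ᵐ x ∂(volume : Measure ℂ), x ∉ frontier D :=
      measure_eq_zero_iff_ae_notMem.1 (hconv.addHaar_frontier volume)
    filter_upwards [hnull] with x hx hxΩ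
    have hgv : gradient v x = (fderiv ℝ v x 1 : ℂ) + (fderiv ℝ v x I : ℂ) * I := by
      apply Complex.ext
      · rw [← inner_gradient v x 1, ← inner_gradient v x I]
        generalize gradient v x = q
        simp
      · rw [← inner_gradient v x 1, ← inner_gradient v x I]
        generalize gradient v x = q
        simp
    have main : ∀ (C : ℂ → ℂ) (s : ℝ), s ≠ 0 → DifferentiableAt ℂ C x →
        (u =ᶠ[𝓝 x] fun z => ((C z).re - ‖z‖ ^ 2 / 4) / s) → (Ψ =ᶠ[𝓝 x] fun z => (C z).im) →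
        s * ⟪gradient u x, gradient v x⟫ =
          lineDeriv ℝ Ψ x I * fderiv ℝ v x 1 - lineDeriv ℝ Ψ x 1 * fderiv ℝ v x I
            - (fderiv ℝ v x 1 * x.re + fderiv ℝ v x I * x.im) / 2 := by
      intro C s hs hC e1 e2
      obtain ⟨p1, p2⟩ := fderiv_pot hC
      obtain ⟨q1, q2⟩ := hasFDerivAt_im hC
      have dΨ : DifferentiableAt ℝ Ψ x := q1.congr_of_eventuallyEq e2
      rw [inner_gradient, e1.fderiv_eq, dΨ.lineDeriv_eq_fderiv, dΨ.lineDeriv_eq_fderiv,
        e2.fderiv_eq, q2, q2]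
      have e3 : (fun z => ((C z).re - ‖z‖ ^ 2 / 4) / s) =
          fun z => s⁻¹ * ((C z).re - ‖z‖ ^ 2 / 4) := by funext z; ring
      rw [e3, fderiv_const_mul p1, smul_apply, p2, hgv]
      simp
      field_simp
    by_cases hxD : x ∈ D
    · simp only [conductivity, if_pos hxD]
      refine main A σ hσ (hA.differentiableAt (hO₁.mem_nhds (h1 (subset_closure hxD)))) ?_ ?_
      · filter_upwards [hDo.mem_nhds hxD] with z hz using (inD z hz).1
      · filter_upwards [hDo.mem_nhds hxD] with z hz using (inD z hz).2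
    · simp only [conductivity, if_neg hxD]
      have hx' : x ∈ Ω \ closure D := ⟨hxΩ, fun h => hx (by rw [hDo.frontier_eq]; exact ⟨h, hxD⟩)⟩
      have ho : IsOpen (Ω \ closure D) := hΩo.sdiff isClosed_closure
      refine main B 1 one_ne_zero
        (hB.differentiableAt (hO₂.mem_nhds (h2 ⟨subset_closure hxΩ, hxD⟩))) ?_ ?_
      · filter_upwards [ho.mem_nhds hx'] with z hz using by rw [(outD z hz).1, div_one]
      · filter_upwards [ho.mem_nhds hx'] with z hz using (outD z hz).2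
  · refine (ae_restrict_iff' (hΩo.inter (hO₂.sdiff isClosed_closure)).measurableSet).2
      (Eventually.of_forall fun x hx => (outD x ⟨hx.1, hx.2.2⟩).1.symm)
  · obtain ⟨τ, hτ, hn⟩ := hbn p hp
    rw [hρ.normal_unique hΩo hp hτ]
    have hτ0 : gradient τ p ≠ 0 := by obtain ⟨-, -, -, -, h, -⟩ := hτ; exact h
    set n := ‖gradient τ p‖⁻¹ • gradient τ p with hn'
    have n1 : ‖n‖ = 1 := by
      rw [hn', norm_smul, norm_inv, norm_norm, inv_mul_cancel₀ (norm_ne_zero_iff.2 hτ0)]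
    rw [(fderiv_pot (hB.differentiableAt (hO₂.mem_nhds (h2 (fΩ p hp).2)))).2]
    have r1 := congrArg re hn
    have r2 := congrArg im hn
    have n2 : n.re * n.re + n.im * n.im = 1 := by
      rw [← normSq_apply, normSq_eq_norm_sq, n1]; norm_num
    simp at r1 r2 ⊢
    have r1' : (deriv B p).re = c * n.re + p.re / 2 := by linarith
    have r2' : (deriv B p).im = -(c * n.im) - p.im / 2 := by linarith
    rw [r1', r2']
    linear_combination c * n2

end Pool.Agent.Lib.MP_8dfb46_an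
end

-- part Pool.Agent.Lib.MP_8dfb46_an.Conf
section

/-! Conformal images of the unit disc under maps with `Re F' > 0`. -/

namespace Pool.Agent.Lib.MP_8dfb46_an

open MeasureTheory Filter Topology Set Metric Complex
open scoped ContDiff RealInnerProductSpace NNReal ComplexConjugate

structure Conf (F : ℂ → ℂ) (r : ℝ) : Prop where
  one_lt : 1 < r
  diff : DifferentiableOn ℂ F (ball 0 r)
  pos : ∀ z ∈ ball (0 : ℂ) r, 0 < (deriv F z).re

namespace Conf
variable {F : ℂ → ℂ} {r : ℝ}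

theorem hasDerivAt (h : Conf F r) {z : ℂ} (hz : z ∈ ball (0 : ℂ) r) : HasDerivAt F (deriv F z) z :=
  (h.diff.differentiableAt (isOpen_ball.mem_nhds hz)).hasDerivAt

theorem ne (h : Conf F r) {z : ℂ} (hz : z ∈ ball (0 : ℂ) r) : deriv F z ≠ 0 := fun e => by
  have := h.pos z hz
  rw [e] at this; simp at this

theorem strict (h : Conf F r) {z : ℂ} (hz : z ∈ ball (0 : ℂ) r) :
    HasStrictDerivAt F (deriv F z) z :=
  ((h.diff.analyticAt (isOpen_ball.mem_nhds hz)).contDiffAt (n := 1)).hasStrictDerivAt one_ne_zero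

theorem re_pos (h : Conf F r) {z w : ℂ} (hz : z ∈ ball (0 : ℂ) r) (hw : w ∈ ball (0 : ℂ) r)
    (hne : z ≠ w) : 0 < ((F z - F w) / (z - w)).re := by
  have hd : z - w ≠ 0 := sub_ne_zero.2 hne
  have hmem : ∀ t ∈ Icc (0 : ℝ) 1, w + (t : ℂ) * (z - w) ∈ ball (0 : ℂ) r := fun t ht => by
    have := (convex_ball (0 : ℂ) r).add_smul_sub_mem hw hz ht
    simpa using this
  have hder : ∀ t ∈ Icc (0 : ℝ) 1, HasDerivAt (fun t : ℝ => (F (w + (t : ℂ) * (z - w)) / (z - w)).re)
      (deriv F (w + (t : ℂ) * (z - w))).re t := fun t ht => by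
    have h1 : HasDerivAt (fun s : ℂ => F (w + s * (z - w)) / (z - w))
        (deriv F (w + (t : ℂ) * (z - w))) (t : ℂ) := by
      have h2 : HasDerivAt (fun s : ℂ => w + s * (z - w)) (z - w) (t : ℂ) := by
        simpa using ((hasDerivAt_id (t : ℂ)).mul_const (z - w)).const_add w
      have h3 := ((h.hasDerivAt (hmem t ht)).comp (t : ℂ) h2).div_const (z - w)
      rw [mul_div_assoc, div_self hd, mul_one] at h3
      exact h3
    exact h1.real_of_complex
  have hmono : StrictMonoOn (fun t : ℝ => (F (w + (t : ℂ) * (z - w)) / (z - w)).re) (Icc 0 1) := by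
    refine strictMonoOn_of_deriv_pos (convex_Icc 0 1)
      (fun t ht => (hder t ht).continuousAt.continuousWithinAt) fun t ht => ?_
    have ht' := interior_subset ht
    rw [(hder t ht').deriv]
    exact h.pos _ (hmem t ht')
  have := hmono (left_mem_Icc.2 zero_le_one) (right_mem_Icc.2 zero_le_one) zero_lt_one
  simp only [ofReal_zero, zero_mul, add_zero, ofReal_one, one_mul, add_sub_cancel] at this
  rw [sub_div, sub_re]; linarith

theorem injOn (h : Conf F r) : InjOn F (ball 0 r) := fun z hz w hw e => by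
  by_contra hne
  have := h.re_pos hz hw hne
  rw [e] at this; simp at this

theorem isOpen_image (h : Conf F r) {U : Set ℂ} (hU : IsOpen U) (hUr : U ⊆ ball 0 r) :
    IsOpen (F '' U) := by
  rw [isOpen_iff_mem_nhds]
  rintro _ ⟨z, hz, rfl⟩
  rw [← (h.strict (hUr hz)).map_nhds_eq (h.ne (hUr hz))]
  exact image_mem_map (hU.mem_nhds hz)

/-- the inverse map -/
noncomputable def inv (F : ℂ → ℂ) (r : ℝ) : ℂ → ℂ := Function.invFunOn F (ball 0 r)

theorem inv_apply (h : Conf F r) {z : ℂ} (hz : z ∈ ball (0 : ℂ) r) : inv F r (F z) = z :=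
  h.injOn.leftInvOn_invFunOn hz

theorem hasDerivAt_inv (h : Conf F r) {z : ℂ} (hz : z ∈ ball (0 : ℂ) r) :
    HasDerivAt (inv F r) (deriv F z)⁻¹ (F z) := by
  refine ((h.strict hz).to_local_left_inverse (h.ne hz) ?_).hasDerivAt
  filter_upwards [isOpen_ball.mem_nhds hz] with w hw using h.inv_apply hw

theorem diff_inv (h : Conf F r) : DifferentiableOn ℂ (inv F r) (F '' ball 0 r) := by
  rintro _ ⟨z, hz, rfl⟩
  exact (h.hasDerivAt_inv hz).differentiableAt.differentiableWithinAt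

theorem cb (h : Conf F r) : closedBall (0 : ℂ) 1 ⊆ ball 0 r := closedBall_subset_ball h.one_lt

theorem bb (h : Conf F r) : ball (0 : ℂ) 1 ⊆ ball 0 r := ball_subset_ball h.one_lt.le

theorem sb (h : Conf F r) {z : ℂ} (hz : ‖z‖ = 1) : z ∈ ball (0 : ℂ) r := by
  simpa [hz] using h.one_lt

theorem isCompact (h : Conf F r) : IsCompact (F '' closedBall 0 1) :=
  (isCompact_closedBall 0 1).image_of_continuousOn (h.diff.continuousOn.mono h.cb)

theorem closure_eq (h : Conf F r) : closure (F '' ball 0 1) = F '' closedBall 0 1 := by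
  apply Subset.antisymm
  · exact closure_minimal (image_mono ball_subset_closedBall) h.isCompact.isClosed
  · rw [← closure_ball (0 : ℂ) one_ne_zero]
    refine ContinuousOn.image_closure ?_
    rw [closure_ball (0 : ℂ) one_ne_zero]
    exact h.diff.continuousOn.mono h.cb

theorem isOpen (h : Conf F r) : IsOpen (F '' ball 0 1) := h.isOpen_image isOpen_ball h.bb

theorem frontier_sub (h : Conf F r) {p : ℂ} (hp : p ∈ frontier (F '' ball 0 1)) :
    ∃ ζ, ‖ζ‖ = 1 ∧ F ζ = p := by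
  rw [h.isOpen.frontier_eq, h.closure_eq] at hp
  obtain ⟨⟨ζ, h1, rfl⟩, h2⟩ := hp
  refine ⟨ζ, le_antisymm (by simpa using h1) (not_lt.1 fun hc => h2 ⟨ζ, by simpa using hc, rfl⟩), rfl⟩

theorem defining (h : Conf F r) {ζ : ℂ} (hζ : ‖ζ‖ = 1) :
    IsDefiningAt (F '' ball 0 1) (F ζ) (fun z => ‖inv F r z‖ ^ 2 - 1) ∧
      gradient (fun z => ‖inv F r z‖ ^ 2 - 1) (F ζ) = 2 * ζ / conj (deriv F ζ) := by
  have hζr := h.sb hζ
  have hg : gradient (fun z => ‖inv F r z‖ ^ 2 - 1) (F ζ) = 2 * ζ / conj (deriv F ζ) := by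
    have h1 := ((h.hasDerivAt_inv hζr).hasFDerivAt.restrictScalars ℝ).norm_sq.sub_const 1
    apply ext_inner_right ℝ
    intro y
    rw [inner_gradient, h1.fderiv, h.inv_apply hζr]
    rw [div_eq_mul_inv, ← map_inv₀]
    generalize (deriv F ζ)⁻¹ = q
    simp
    ring
  refine ⟨⟨F '' ball 0 r, h.isOpen_image isOpen_ball subset_rfl, ⟨ζ, hζr, rfl⟩, ?_, ?_, ?_⟩, hg⟩
  · exact ((contDiffOn_hol (h.isOpen_image isOpen_ball subset_rfl) h.diff_inv).norm_sq ℝ).sub
      contDiffOn_const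
  · rw [hg]
    have : ζ ≠ 0 := by rintro rfl; simp at hζ
    have := h.ne hζr
    simp [*]
  · rintro _ ⟨z, hz, rfl⟩
    simp only [h.inv_apply hz]
    constructor
    · rintro ⟨w, hw, e⟩
      rw [← h.injOn (h.bb hw) hz e]
      have : ‖w‖ < 1 := by simpa using hw
      nlinarith [norm_nonneg w]
    · intro hlt
      exact ⟨z, by
        have : ‖z‖ < 1 := by nlinarith [norm_nonneg z]
        simpa using this, rfl⟩

theorem isDomain (h : Conf F r) : IsDomain (F '' ball 0 1) := by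
  refine ⟨h.isOpen, (isConnected_ball one_pos).image _ (h.diff.continuousOn.mono h.bb),
    h.isCompact.isBounded.subset (image_mono ball_subset_closedBall), fun p hp => ?_⟩
  obtain ⟨ζ, hζ, rfl⟩ := h.frontier_sub hp
  exact ⟨_, (h.defining hζ).1⟩

end Conf

end Pool.Agent.Lib.MP_8dfb46_an
end

-- part Pool.Agent.Lib.MP_8dfb46_an.Cvx
section

/-! Convexity and non-convexity criteria for conformal images of the disc. -/

namespace Pool.Agent.Lib.MP_8dfb46_an

open MeasureTheory Filter Topology Set Metric Complex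
open scoped ContDiff RealInnerProductSpace NNReal ComplexConjugate Real

theorem convex_of_support {D : Set ℂ} (ho : IsOpen D) (hb : Bornology.IsBounded D)
    (h : ∀ p ∈ frontier D, ∃ n : ℂ, ‖n‖ = 1 ∧
      ∀ z ∈ frontier D, (conj n * z).re ≤ (conj n * p).re) : Convex ℝ D := by
  have nf : ∀ z ∈ frontier D, z ∉ D := fun z hz => by rw [ho.frontier_eq] at hz; exact hz.2
  obtain ⟨M, hM⟩ := hb.exists_norm_le
  have key : ∀ p ∈ frontier D, ∃ n : ℂ, ∀ x ∈ D, (conj n * x).re < (conj n * p).re := by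
    intro p hp
    obtain ⟨n, hn, hle⟩ := h p hp
    refine ⟨n, fun x hx => ?_⟩
    have hM0 : 0 ≤ M := (norm_nonneg x).trans (hM x hx)
    have hy : x + ((2 * M + 1 : ℝ) : ℂ) * n ∉ D := fun hc => by
      have h1 := hM _ hc
      have h2 := hM x hx
      have h3 : ‖((2 * M + 1 : ℝ) : ℂ) * n‖ = 2 * M + 1 := by
        rw [norm_mul, hn, mul_one, norm_real, Real.norm_of_nonneg (by linarith)]
      have h4 := norm_sub_le (x + ((2 * M + 1 : ℝ) : ℂ) * n) x
      rw [add_sub_cancel_left, h3] at h4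
      linarith
    obtain ⟨z, hz, hzf⟩ := exists_frontier_segment hx hy
    rw [segment_eq_image'] at hz
    obtain ⟨t, ht, rfl⟩ := hz
    refine lt_of_lt_of_le ?_ (hle _ hzf)
    have ht0 : t ≠ 0 := by
      rintro rfl
      exact nf _ hzf (by simpa using hx)
    have ht1 : 0 < t := lt_of_le_of_ne ht.1 ht0.symm
    have n2 : n.re * n.re + n.im * n.im = 1 := by
      rw [← normSq_apply, normSq_eq_norm_sq, hn]; norm_num
    have : 0 < t * (2 * M + 1) := by positivity
    simp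
    nlinarith
  rw [convex_iff_segment_subset]
  intro x hx y hy w hw
  by_contra hc
  obtain ⟨p, hp, hpf⟩ := exists_frontier_segment hx hc
  have hp' : p ∈ segment ℝ x y :=
    (convex_segment x y).segment_subset (left_mem_segment ℝ x y) hw hp
  obtain ⟨n, hn⟩ := key p hpf
  obtain ⟨a, b, ha, hb, hab, rfl⟩ := hp'
  have h1 := hn x hx
  have h2 := hn y hy
  have e : (conj n * (a • x + b • y)).re = a * (conj n * x).re + b * (conj n * y).re := by
    simp; ring
  rw [e] at h1 h2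
  rcases eq_or_lt_of_le ha with rfl | ha'
  · rw [zero_add] at hab; subst hab; linarith
  · have hb' : b = 1 - a := by linarith
    subst hb'
    nlinarith

theorem hasDerivAt_circ (θ : ℝ) : HasDerivAt (fun s : ℂ => exp (s * I)) (exp (θ * I) * I) (θ : ℂ) := by
  simpa using ((hasDerivAt_id (θ : ℂ)).mul_const I).cexp

namespace Conf
variable {F : ℂ → ℂ} {r : ℝ}

theorem hasDerivAt2 (h : Conf F r) {z : ℂ} (hz : z ∈ ball (0 : ℂ) r) :
    HasDerivAt (deriv F) (deriv (deriv F) z) z :=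
  ((h.diff.deriv isOpen_ball).differentiableAt (isOpen_ball.mem_nhds hz)).hasDerivAt

theorem convex (h : Conf F r)
    (hc : ∀ ζ : ℂ, ‖ζ‖ = 1 → 0 < (1 + ζ * deriv (deriv F) ζ / deriv F ζ).re) :
    Convex ℝ (F '' ball 0 1) := by
  have hn1 : ∀ θ : ℝ, ‖exp (θ * I)‖ = 1 := norm_exp_ofReal_mul_I
  have hb : ∀ θ : ℝ, exp (θ * I) ∈ ball (0 : ℂ) r := fun θ => h.sb (hn1 θ)
  let L : ℝ → ℂ := fun θ => log (deriv F (exp (θ * I)))
  let ϑ : ℝ → ℝ := fun θ => θ + (L θ).im
  have hϑ : ∀ θ : ℝ, HasDerivAt ϑ (1 + exp (θ * I) * deriv (deriv F) (exp (θ * I)) /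
      deriv F (exp (θ * I))).re θ := fun θ => by
    have h0 : HasDerivAt (fun s : ℂ => deriv F (exp (s * I)))
        (deriv (deriv F) (exp (θ * I)) * (exp (θ * I) * I)) (θ : ℂ) := by
      have := (h.hasDerivAt2 (hb θ)).comp (θ : ℂ) (hasDerivAt_circ θ)
      exact this
    have h1 := h0.clog (Or.inl (h.pos _ (hb θ)))
    have h2 := ((hasDerivAt_id (θ : ℂ)).add (h1.const_mul (-I))).real_of_complex
    convert h2 using 1
    · funext t; simp [ϑ, L]
    · congr 2
      rw [← mul_div_assoc]; congr 1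
      linear_combination (exp (θ * I) * deriv (deriv F) (exp (θ * I))) * I_mul_I
  have mono : Monotone ϑ :=
    (strictMono_of_deriv_pos fun θ => by rw [(hϑ θ).deriv]; exact hc _ (hn1 θ)).monotone
  have per : ∀ θ : ℝ, exp (((θ + 2 * π : ℝ) : ℂ) * I) = exp (θ * I) := fun θ => by
    push_cast; rw [add_mul, exp_add, exp_two_pi_mul_I, mul_one]
  refine convex_of_support h.isOpen h.isDomain.2.2.1 fun p hp => ?_
  obtain ⟨ζ₀, hζ₀, rfl⟩ := h.frontier_sub hp
  obtain ⟨θ₀, rfl⟩ := (norm_eq_one_iff ζ₀).1 hζ₀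
  refine ⟨exp (ϑ θ₀ * I), hn1 _, fun z hz => ?_⟩
  obtain ⟨ζ, hζ, rfl⟩ := h.frontier_sub hz
  obtain ⟨θ, rfl⟩ := (norm_eq_one_iff ζ).1 hζ
  let g : ℝ → ℝ := fun θ => (conj (exp (ϑ θ₀ * I)) * F (exp (θ * I))).re
  have gper : Function.Periodic g (2 * π) := fun θ => by simp only [g, per]
  have hg : ∀ θ : ℝ, HasDerivAt g (-(Real.exp (L θ).re * Real.sin (ϑ θ - ϑ θ₀))) θ := fun θ => by
    have h1 := (((h.hasDerivAt (hb θ)).comp (θ : ℂ) (hasDerivAt_circ θ)).const_mul
      (conj (exp (ϑ θ₀ * I)))).real_of_complex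
    refine HasDerivAt.congr_deriv h1 ?_
    have e1 : deriv F (exp (θ * I)) = exp (L θ) := (exp_log (h.ne (hb θ))).symm
    have e2 : conj (exp (ϑ θ₀ * I)) * (exp (L θ) * (exp (θ * I) * I)) =
        exp ((L θ).re + ((ϑ θ - ϑ θ₀ : ℝ) : ℂ) * I) * I := by
      rw [← exp_conj, ← mul_assoc, ← mul_assoc, ← exp_add, ← exp_add]
      congr 2
      apply Complex.ext <;> simp [ϑ]
      ring
    rw [e1, e2, mul_I_re, exp_im]
    simp
  have gc : Continuous g := continuous_iff_continuousAt.2 fun θ => (hg θ).continuousAt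
  have ϑc : Continuous ϑ := continuous_iff_continuousAt.2 fun θ => (hϑ θ).continuousAt
  have ϑper : ϑ (θ₀ + 2 * π) = ϑ θ₀ + 2 * π := by simp only [ϑ, L, per]; ring
  have pi0 := Real.pi_pos
  obtain ⟨θ₁, hθ₁, e₁⟩ := intermediate_value_Icc (show θ₀ ≤ θ₀ + 2 * π by linarith)
    ϑc.continuousOn (show ϑ θ₀ + π ∈ Icc (ϑ θ₀) (ϑ (θ₀ + 2 * π)) by
      rw [ϑper]; constructor <;> linarith)
  obtain ⟨y, hy, ey⟩ := gper.exists_mem_Ico (by linarith) θ θ₀
  change g θ ≤ g θ₀
  rw [ey]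
  rcases le_total y θ₁ with hy1 | hy1
  · refine antitoneOn_of_deriv_nonpos (convex_Icc θ₀ θ₁) gc.continuousOn
      (fun t _ => (hg t).differentiableAt.differentiableWithinAt) (fun t ht => ?_)
      (left_mem_Icc.2 hθ₁.1) ⟨hy.1, hy1⟩ hy.1
    have ht' := interior_subset ht
    rw [(hg t).deriv, neg_nonpos]
    have a1 := mono ht'.1
    have a2 := mono ht'.2
    exact mul_nonneg (Real.exp_pos _).le
      (Real.sin_nonneg_of_nonneg_of_le_pi (by linarith) (by linarith))
  · rw [← gper θ₀]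
    refine monotoneOn_of_deriv_nonneg (convex_Icc θ₁ (θ₀ + 2 * π)) gc.continuousOn
      (fun t _ => (hg t).differentiableAt.differentiableWithinAt) (fun t ht => ?_)
      ⟨hy1, hy.2.le⟩ (right_mem_Icc.2 hθ₁.2) hy.2.le
    have ht' := interior_subset ht
    rw [(hg t).deriv, neg_nonneg]
    have a1 := mono ht'.1
    have a2 := mono ht'.2
    refine mul_nonpos_of_nonneg_of_nonpos (Real.exp_pos _).le ?_
    rw [← Real.sin_sub_two_pi]
    exact Real.sin_nonpos_of_nonpos_of_neg_pi_le (by linarith) (by linarith)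

theorem not_convex (h : Conf F r) (hsym : ∀ z, F (conj z) = conj (F z))
    (hc : (deriv F 1 + deriv (deriv F) 1).re < 0) : ¬ Convex ℝ (F '' ball 0 1) := by
  intro hcv
  have hcl := hcv.closure
  rw [h.closure_eq] at hcl
  have hn1 : ∀ θ : ℝ, ‖exp (θ * I)‖ = 1 := norm_exp_ofReal_mul_I
  have hb : ∀ θ : ℝ, exp (θ * I) ∈ ball (0 : ℂ) r := fun θ => h.sb (hn1 θ)
  let g : ℝ → ℝ := fun θ => (F (exp (θ * I))).re
  have hle : ∀ θ, g θ ≤ g 0 := fun θ => by
    have m1 : F (exp (θ * I)) ∈ F '' closedBall 0 1 := ⟨_, by simp [hn1], rfl⟩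
    have m2 : F (conj (exp (θ * I))) ∈ F '' closedBall 0 1 := ⟨_, by simp [hn1], rfl⟩
    obtain ⟨ζ, hζ, e⟩ := hcl m1 m2 (show (0 : ℝ) ≤ 1 / 2 by norm_num)
      (show (0 : ℝ) ≤ 1 / 2 by norm_num) (by norm_num)
    have e' : F ζ = (g θ : ℂ) := by
      rw [e, hsym]; apply Complex.ext <;> simp [g]; ring
    have hζ' : conj ζ ∈ closedBall (0 : ℂ) 1 := by simpa using hζ
    have hre : conj ζ = ζ := h.injOn (h.cb hζ') (h.cb hζ) (by rw [hsym, e', conj_ofReal])
    obtain ⟨x, rfl⟩ := conj_eq_iff_real.1 hre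
    have g0 : g 0 = (F 1).re := by simp [g]
    rw [g0]
    by_cases hx : (x : ℂ) = 1
    · rw [← hx, e']; simp
    · have h1 := h.re_pos (h.sb (z := 1) (by simp)) (h.cb hζ) (Ne.symm hx)
      have hx1 : x ≤ 1 := (le_abs_self x).trans (by simpa using hζ)
      have hx2 : x < 1 := lt_of_le_of_ne hx1 fun hh => hx (by rw [hh]; simp)
      rw [e', show (1 : ℂ) - x = ((1 - x : ℝ) : ℂ) by push_cast; ring, div_ofReal_re] at h1
      have := (div_pos_iff_of_pos_right (show 0 < 1 - x by linarith)).1 h1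
      simp at this
      linarith
  have hg : ∀ θ : ℝ, HasDerivAt g (deriv F (exp (θ * I)) * (exp (θ * I) * I)).re θ := fun θ =>
    ((h.hasDerivAt (hb θ)).comp (θ : ℂ) (hasDerivAt_circ θ)).real_of_complex
  have hdg : deriv g = fun θ : ℝ => (deriv F (exp (θ * I)) * (exp (θ * I) * I)).re :=
    funext fun θ => (hg θ).deriv
  have hg2 : HasDerivAt (deriv g) (-(deriv F 1 + deriv (deriv F) 1).re) 0 := by
    rw [hdg]
    have h1 := (((h.hasDerivAt2 (hb 0)).comp ((0 : ℝ) : ℂ) (hasDerivAt_circ 0)).mul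
      ((hasDerivAt_circ 0).mul_const I)).real_of_complex
    refine HasDerivAt.congr_deriv h1 ?_
    simp
  have hmax : IsLocalMax g 0 := Eventually.of_forall hle
  have hmin : IsLocalMin g 0 := isLocalMin_of_deriv_deriv_pos (by rw [hg2.deriv]; linarith)
    hmax.deriv_eq_zero (hg 0).continuousAt
  have hconst : g =ᶠ[𝓝 0] fun _ => g 0 := by
    filter_upwards [hmin] with t ht using le_antisymm (hle t) ht
  have h0 : deriv (deriv g) 0 = 0 := by
    rw [hconst.deriv.deriv_eq]; simp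
  rw [hg2.deriv] at h0
  linarith

end Conf

end Pool.Agent.Lib.MP_8dfb46_an
end

-- part Pool.Agent.Lib.MP_8dfb46_an.Outer
section

/-! The explicit outer domain and outer potential, and the estimates for the core. -/

namespace Pool.Agent.Lib.MP_8dfb46_an

open MeasureTheory Filter Topology Set Metric Complex
open scoped NNReal ComplexConjugate Real

noncomputable section

def phi (α δ : ℝ) (m : ℕ) (ζ : ℂ) : ℂ :=
  ζ * (1 + δ ^ 2 * (q1 α δ * ζ ^ (m + 1) + q2 α δ * (ζ ^ (m + 1)) ^ 2))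

def h0 (α δ : ℝ) : ℝ := (1 + (δ ^ 2 * q1 α δ) ^ 2 + (δ ^ 2 * q2 α δ) ^ 2) / 4

def HH (α δ : ℝ) (m : ℕ) (ζ : ℂ) : ℂ := h0 α δ + δ ^ 2 * Hq α δ (ζ ^ (m + 1))

variable {α δ : ℝ} {m : ℕ}

theorem q1_eq (hδ : 0 < δ) : q1 α δ * (1 + δ) = 2 * α := by unfold q1; field_simp
theorem q2_eq (hδ : 0 < δ) : q2 α δ * (2 + δ) = α ^ 2 * δ := by unfold q2; field_simp
theorem cc_eq : 2 * cc α δ * (1 + α ^ 2 * δ ^ 2) =
    -(1 + 2 * α * δ * (δ ^ 2 * q1 α δ) + α ^ 2 * δ ^ 2 * (δ ^ 2 * q2 α δ)) := by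
  unfold cc; field_simp

theorem hasDerivAt_powk (m : ℕ) (ζ : ℂ) :
    HasDerivAt (fun z : ℂ => z ^ (m + 1)) ((m + 1 : ℂ) * ζ ^ m) ζ := by
  simpa using hasDerivAt_pow (m + 1) ζ

theorem phi_deriv (hδ : 0 < δ) (hk : δ * (m + 1) = 1) (ζ : ℂ) :
    HasDerivAt (phi α δ m) ((1 + α * δ * ζ ^ (m + 1)) ^ 2) ζ := by
  have p := hasDerivAt_powk m ζ
  have h := (hasDerivAt_id ζ).mul ((((p.const_mul (q1 α δ : ℂ)).add
    ((p.pow 2).const_mul (q2 α δ : ℂ))).const_mul ((δ : ℂ) ^ 2)).const_add 1)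
  refine HasDerivAt.congr_deriv h ?_
  have e1 : (q1 α δ : ℂ) * (1 + δ) = 2 * α := by exact_mod_cast q1_eq hδ
  have e2 : (q2 α δ : ℂ) * (2 + δ) = α ^ 2 * δ := by exact_mod_cast q2_eq hδ
  have e3 : (δ : ℂ) * (m + 1) = 1 := by exact_mod_cast hk
  simp only [id, Pi.add_apply, Pi.pow_apply, Nat.cast_ofNat, Nat.add_one_sub_one, pow_one]
  linear_combination (δ * ζ ^ (m + 1)) * e1 + (δ * (ζ ^ (m + 1)) ^ 2) * e2 +
    (δ * q1 α δ * ζ ^ (m + 1) + 2 * δ * q2 α δ * (ζ ^ (m + 1)) ^ 2) * e3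

theorem phi_conf (hδ : 0 < δ) (hk : δ * (m + 1) = 1) (hα : |α| ≤ 1) (hδ' : δ ≤ 1 / 3) {r : ℝ}
    (hr : 1 < r) (hr' : r ^ (m + 1) < 3 / 2) : Conf (phi α δ m) r := by
  refine ⟨hr, fun z _ => (phi_deriv hδ hk z).differentiableAt.differentiableWithinAt, fun z hz => ?_⟩
  rw [(phi_deriv hδ hk z).deriv]
  have h1 : ‖z‖ ^ (m + 1) ≤ r ^ (m + 1) :=
    pow_le_pow_left₀ (norm_nonneg z) (by simpa using (mem_ball_zero_iff.1 hz).le) _
  have h2 : ‖(α * δ * z ^ (m + 1) : ℂ)‖ < 1 / 2 := by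
    rw [norm_mul, norm_mul, norm_pow, norm_real, norm_real, Real.norm_eq_abs,
      Real.norm_of_nonneg hδ.le]
    have : |α| * δ ≤ 1 / 3 := by nlinarith [abs_nonneg α]
    have h3 : 0 ≤ ‖z‖ ^ (m + 1) := by positivity
    nlinarith
  generalize (α * δ * z ^ (m + 1) : ℂ) = x at h2
  have a1 := abs_lt.1 ((abs_re_le_norm x).trans_lt h2)
  have a2 := abs_lt.1 ((abs_im_le_norm x).trans_lt h2)
  simp only [pow_two, mul_re, add_re, one_re, add_im, one_im, zero_add]
  nlinarith

theorem phi_not_convex (hδ : 0 < δ) (hk : δ * (m + 1) = 1) (hα : -1 ≤ α) (hα' : α < -1 / 2)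
    (hδ' : δ < 1) {r : ℝ} (h : Conf (phi α δ m) r) : ¬ Convex ℝ (phi α δ m '' ball 0 1) := by
  refine h.not_convex (fun z => by simp [phi]) ?_
  have e : deriv (phi α δ m) = fun ζ : ℂ => (1 + α * δ * ζ ^ (m + 1)) ^ 2 :=
    funext fun ζ => (phi_deriv hδ hk ζ).deriv
  have h2 := ((((hasDerivAt_powk m 1).const_mul (α * δ : ℂ)).const_add 1).pow 2).deriv
  rw [e]
  erw [h2]
  have e3 : (δ : ℂ) * (m + 1) = 1 := by exact_mod_cast hk
  have : (1 + α * δ * 1 ^ (m + 1) : ℂ) ^ 2 + ((2 : ℕ) : ℂ) * (1 + α * δ * 1 ^ (m + 1)) ^ (2 - 1) *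
      (α * δ * ((m + 1) * 1 ^ m)) = (((1 + α * δ) * (1 + α * δ + 2 * α) : ℝ) : ℂ) := by
    push_cast
    simp only [one_pow, mul_one, pow_one]
    linear_combination (2 * (1 + α * δ) * α) * e3
  simp only
  rw [this, ofReal_re]
  apply mul_neg_of_pos_of_neg <;> nlinarith

theorem HH_deriv {ζ : ℂ} (hζ : ζ ≠ 0) (hk : δ * (m + 1) = 1) :
    HasDerivAt (HH α δ m) (ζ⁻¹ * (δ * (2 * L2 α δ * (ζ ^ (m + 1)) ^ 2 + L1 α δ * ζ ^ (m + 1) -
      M1 α δ * (ζ ^ (m + 1))⁻¹ - 2 * M2 α δ * (ζ ^ (m + 1))⁻¹ ^ 2))) ζ := by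
  have p := hasDerivAt_powk m ζ
  have q := p.inv (pow_ne_zero _ hζ)
  have h := ((((((p.pow 2).const_mul (L2 α δ : ℂ)).add (p.const_mul (L1 α δ : ℂ))).add
    (q.const_mul (M1 α δ : ℂ))).add ((q.pow 2).const_mul (M2 α δ : ℂ))).const_mul
    ((δ : ℂ) ^ 2)).const_add (h0 α δ : ℂ)
  refine HasDerivAt.congr_deriv h ?_
  have e3 : (m + 1 : ℂ) = (δ : ℂ)⁻¹ := by
    have : (δ : ℂ) * (m + 1) = 1 := by exact_mod_cast hk
    exact (inv_eq_of_mul_eq_one_right this).symm
  have hδ : (δ : ℂ) ≠ 0 := by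
    rintro h; have : δ = 0 := by exact_mod_cast h
    rw [this] at hk; simp at hk
  simp only [Pi.inv_apply, Nat.cast_ofNat, Nat.add_one_sub_one, pow_one, e3, pow_succ ζ m]
  have := pow_ne_zero m hζ
  field_simp
  ring

theorem HH_re (hδ : 0 < δ) {ζ : ℂ} (hζ : ‖ζ‖ = 1) :
    (HH α δ m ζ).re = ‖phi α δ m ζ‖ ^ 2 / 4 := by
  have hW : ‖ζ ^ (m + 1)‖ = 1 := by rw [norm_pow, hζ, one_pow]
  unfold HH phi Hq
  rw [norm_mul, hζ, one_mul, inv_eq_conj hW]
  generalize ζ ^ (m + 1) = W at hW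
  have n2 : W.re * W.re + W.im * W.im = 1 := by
    rw [← normSq_apply, normSq_eq_norm_sq, hW]; norm_num
  rw [← normSq_eq_norm_sq, normSq_apply]
  have e1 := q1_eq (α := α) hδ
  have e2 := q2_eq (α := α) hδ
  simp only [← ofReal_pow, pow_two W, pow_two (conj W), add_re, add_im, mul_re, mul_im, ofReal_re,
    ofReal_im, conj_re, conj_im, one_re, one_im, h0, L2, L1, M1, M2]
  generalize q1 α δ = a at *
  generalize q2 α δ = b at *
  generalize cc α δ = c
  have ea : α = a * (1 + δ) / 2 := by linarith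
  linear_combination (-(δ ^ 2 * a) ^ 2 / 4 - (δ ^ 2 * b) ^ 2 / 4 * (W.re * W.re + W.im * W.im + 1) -
      δ ^ 4 * a * b * W.re / 2) * n2 +
    (-δ ^ 2 * W.re / 2 + δ ^ 4 * b * W.re / 2) * e1 +
    (-δ ^ 2 * (W.re * W.re - W.im * W.im) / 4 - δ ^ 4 * a * W.re / 2) * e2

theorem HH_normal (hδ : 0 < δ) (hk : δ * (m + 1) = 1) {ζ : ℂ} (hζ : ‖ζ‖ = 1)
    (hψ : deriv (phi α δ m) ζ ≠ 0) :
    conj (deriv (HH α δ m) ζ * (deriv (phi α δ m) ζ)⁻¹) - phi α δ m ζ / 2 =
      cc α δ • (‖2 * ζ / conj (deriv (phi α δ m) ζ)‖⁻¹ • (2 * ζ / conj (deriv (phi α δ m) ζ))) := by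
  have hζ0 : ζ ≠ 0 := by rintro rfl; simp at hζ
  have hW : ‖ζ ^ (m + 1)‖ = 1 := by rw [norm_pow, hζ, one_pow]
  rw [(HH_deriv hζ0 hk).deriv]
  rw [(phi_deriv hδ hk ζ).deriv] at hψ ⊢
  unfold phi
  have hW0 : ζ ^ (m + 1) ≠ 0 := pow_ne_zero _ hζ0
  generalize ζ ^ (m + 1) = W at hW hW0 hψ
  have cW : conj W = W⁻¹ := (inv_eq_conj hW).symm
  have cζ : conj ζ = ζ⁻¹ := (inv_eq_conj hζ).symm
  have hψ1 : (1 + α * δ * W : ℂ) ≠ 0 := fun h => hψ (by rw [h]; simp)
  have hψ2 : (1 + α * δ * W⁻¹ : ℂ) ≠ 0 := by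
    have := (map_ne_zero (starRingEnd ℂ)).2 hψ1
    simpa [cW] using this
  have nn : ((‖2 * ζ / conj ((1 + α * δ * W) ^ 2)‖⁻¹ : ℝ) : ℂ) =
      (1 + α * δ * W) * (1 + α * δ * W⁻¹) / 2 := by
    rw [norm_div, norm_mul, hζ, RCLike.norm_conj, norm_pow, inv_div]
    push_cast
    rw [← mul_conj']
    simp [cW]
  rw [real_smul, real_smul, nn]
  have e : (2 * cc α δ * (1 + α ^ 2 * δ ^ 2) : ℂ) =
    -(1 + 2 * α * δ * (δ ^ 2 * q1 α δ) + α ^ 2 * δ ^ 2 * (δ ^ 2 * q2 α δ)) := by
    exact_mod_cast cc_eq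
  have hX : W⁻¹ * W = 1 := inv_mul_cancel₀ hW0
  have key : (δ : ℂ) * (2 * L2 α δ * W⁻¹ ^ 2 + L1 α δ * W⁻¹ - M1 α δ * W - 2 * M2 α δ * W ^ 2) =
      cc α δ * (1 + α * δ * W⁻¹) * (1 + α * δ * W) +
        (1 + α * δ * W⁻¹) ^ 2 * (1 + δ ^ 2 * (q1 α δ * W + q2 α δ * W ^ 2)) / 2 := by
    simp only [L2, L1, M1, M2]
    push_cast
    generalize W⁻¹ = X at hX
    linear_combination (-1 / 2 : ℂ) * e - (cc α δ * α ^ 2 * δ ^ 2 + α * δ ^ 3 * q1 α δ +
      α * δ ^ 3 * q2 α δ * W + α ^ 2 * δ ^ 4 * q1 α δ * X / 2 +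
      α ^ 2 * δ ^ 4 * q2 α δ * (X * W + 1) / 2) * hX
  simp only [map_mul, map_add, map_sub, map_inv₀, map_pow, conj_ofReal, cW, cζ, inv_inv, map_one,
    map_ofNat]
  rw [key]
  generalize 1 + (α : ℂ) * δ * W⁻¹ = P at hψ2
  field_simp
  ring

def FF (R δ : ℝ) (m : ℕ) (s : ℂ → ℂ) (ξ : ℂ) : ℂ := R * ξ * (1 + δ ^ 2 * s (ξ ^ (m + 1)))

theorem FF_good {R β η r : ℝ} {s : ℂ → ℂ} (hR : 0 < R) (hδ : 0 < δ) (hk : δ * (m + 1) = 1)
    (hs : DifferentiableOn ℂ s (ball 0 2)) (hb : ∀ w ∈ ball (0 : ℂ) 2, ‖s w - β * w‖ ≤ η)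
    (hsm : |β| + 12 * η + 15 * δ < 1) (hr : 1 < r) (hr' : r ^ (m + 1) < 3 / 2) :
    Conf (FF R δ m s) r ∧ Convex ℝ (FF R δ m s '' ball 0 1) := by
  have hη : 0 ≤ η := (norm_nonneg _).trans (hb 0 (by simp))
  have hβ := abs_nonneg β
  have hd : DifferentiableOn ℂ (fun w => s w - β * w) (ball 0 2) :=
    hs.sub (differentiableOn_id.const_mul _)
  have at1 : ∀ w : ℂ, ‖w‖ < 2 → HasDerivAt s (deriv s w) w := fun w hw =>
    (hs.differentiableAt (isOpen_ball.mem_nhds (by simpa using hw))).hasDerivAt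
  have at2 : ∀ w : ℂ, ‖w‖ < 2 → HasDerivAt (deriv s) (deriv (deriv s) w) w := fun w hw =>
    ((hs.deriv isOpen_ball).differentiableAt (isOpen_ball.mem_nhds (by simpa using hw))).hasDerivAt
  have tri : ∀ {w z : ℂ} {a b : ℝ}, ‖w‖ ≤ a → z ∈ closedBall w b → ‖z‖ ≤ a + b := by
    intro w z a b h1 h2
    have := norm_le_norm_add_norm_sub' z w
    rw [mem_closedBall, dist_eq_norm] at h2
    linarith
  have b1 : ∀ w : ℂ, ‖w‖ ≤ 3 / 2 → ‖deriv s w - β‖ ≤ 4 * η := fun w hw => by
    have sub : closedBall w (1 / 4) ⊆ ball 0 2 := fun z hz => by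
      have := tri hw hz
      simp only [mem_ball_zero_iff]; linarith
    have := norm_deriv_le_of_forall_mem_sphere_norm_le (c := w) (R := 1 / 4) (by norm_num)
      ((hd.mono sub).diffContOnCl_ball subset_rfl)
      fun z hz => hb z (sub (sphere_subset_closedBall hz))
    have e : HasDerivAt (fun w => s w - β * w) (deriv s w - β) w := by
      simpa using (at1 w (by linarith)).fun_sub ((hasDerivAt_id' w).const_mul (β : ℂ))
    rw [e.deriv] at this
    linarith
  have b2 : ∀ w : ℂ, ‖w‖ ≤ 1 → ‖deriv (deriv s) w‖ ≤ 8 * η := fun w hw => by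
    have sub : closedBall w (1 / 2) ⊆ ball 0 2 := fun z hz => by
      have := tri hw hz
      simp only [mem_ball_zero_iff]; linarith
    have := norm_deriv_le_of_forall_mem_sphere_norm_le (c := w) (R := 1 / 2) (by norm_num)
      ((((hs.deriv isOpen_ball).sub_const (β : ℂ)).mono sub).diffContOnCl_ball subset_rfl)
      fun z hz => b1 z (by have := tri hw (sphere_subset_closedBall hz); linarith)
    rw [deriv_sub_const] at this
    linarith
  have b1' : ∀ w : ℂ, ‖w‖ ≤ 3 / 2 → ‖deriv s w‖ ≤ |β| + 4 * η := fun w hw => by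
    have := norm_le_norm_add_norm_sub' (deriv s w) β
    rw [norm_real, Real.norm_eq_abs] at this
    linarith [b1 w hw]
  have b0 : ∀ w : ℂ, ‖w‖ ≤ 3 / 2 → ‖s w‖ ≤ 3 := fun w hw => by
    have := norm_le_norm_add_norm_sub' (s w) (β * w)
    rw [norm_mul, norm_real, Real.norm_eq_abs] at this
    have h2 := hb w (by simp only [mem_ball_zero_iff]; linarith)
    nlinarith [norm_nonneg w]
  have e3 : (δ : ℂ) * (m + 1) = 1 := by exact_mod_cast hk
  have pw : ∀ ξ ∈ ball (0 : ℂ) r, ‖ξ ^ (m + 1)‖ ≤ 3 / 2 := fun ξ hξ => by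
    rw [norm_pow]
    exact (pow_le_pow_left₀ (norm_nonneg ξ) (mem_ball_zero_iff.1 hξ).le _).trans hr'.le
  let F1 : ℂ → ℂ := fun ξ => R * (1 + (δ ^ 2 * s (ξ ^ (m + 1)) +
    δ * (ξ ^ (m + 1) * deriv s (ξ ^ (m + 1)))))
  have d1 : ∀ ξ ∈ ball (0 : ℂ) r, HasDerivAt (FF R δ m s) (F1 ξ) ξ := fun ξ hξ => by
    have p := (at1 _ ((pw ξ hξ).trans_lt (by norm_num))).comp ξ (hasDerivAt_powk m ξ)
    have h := ((hasDerivAt_id ξ).const_mul (R : ℂ)).mul ((p.const_mul ((δ : ℂ) ^ 2)).const_add 1)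
    refine HasDerivAt.congr_deriv h ?_
    simp only [F1, id, Function.comp_apply]
    linear_combination (R * δ * ξ ^ (m + 1) * deriv s (ξ ^ (m + 1))) * e3
  have small : ∀ ξ ∈ ball (0 : ℂ) r, ‖δ ^ 2 * s (ξ ^ (m + 1)) +
      δ * (ξ ^ (m + 1) * deriv s (ξ ^ (m + 1)))‖ ≤ 10 * δ := fun ξ hξ => by
    refine (norm_add_le _ _).trans ?_
    simp only [norm_mul, norm_pow (δ : ℂ), norm_real, Real.norm_of_nonneg hδ.le]
    have a1 := b0 _ (pw ξ hξ)
    have a2 := b1' _ (pw ξ hξ)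
    have a3 := pw ξ hξ
    have a4 : ‖ξ ^ (m + 1)‖ * ‖deriv s (ξ ^ (m + 1))‖ ≤ 3 / 2 * 1 :=
      mul_le_mul a3 (by linarith) (norm_nonneg _) (by norm_num)
    have a5 : δ * ‖s (ξ ^ (m + 1))‖ ≤ 1 * 3 :=
      mul_le_mul (by linarith) a1 (norm_nonneg _) (by norm_num)
    nlinarith
  have conf : Conf (FF R δ m s) r := by
    refine ⟨hr, fun z hz => (d1 z hz).differentiableAt.differentiableWithinAt, fun z hz => ?_⟩
    rw [(d1 z hz).deriv]
    have := abs_le.1 ((abs_re_le_norm _).trans (small z hz))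
    simp only [F1, re_ofReal_mul, add_re (1 : ℂ), one_re]
    apply mul_pos hR
    linarith
  refine ⟨conf, conf.convex fun ξ hξ => ?_⟩
  have hξr := conf.sb hξ
  have hw : ‖ξ ^ (m + 1)‖ = 1 := by rw [norm_pow, hξ, one_pow]
  have ee : deriv (FF R δ m s) =ᶠ[𝓝 ξ] F1 := by
    filter_upwards [isOpen_ball.mem_nhds hξr] with z hz using (d1 z hz).deriv
  have p0 := hasDerivAt_powk m ξ
  have p := (at1 _ (by rw [hw]; norm_num)).comp ξ p0
  have p' := (at2 _ (by rw [hw]; norm_num)).comp ξ p0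
  have h := (((p.const_mul ((δ : ℂ) ^ 2)).add ((p0.mul p').const_mul (δ : ℂ))).const_add 1).const_mul
    (R : ℂ)
  have d2 : ξ * deriv F1 ξ = R * (δ * (ξ ^ (m + 1) * deriv s (ξ ^ (m + 1))) +
      ξ ^ (m + 1) * deriv s (ξ ^ (m + 1)) +
      ξ ^ (m + 1) * (ξ ^ (m + 1) * deriv (deriv s) (ξ ^ (m + 1)))) := by
    erw [h.deriv]
    simp only [Function.comp_apply]
    linear_combination (R * (δ * (ξ ^ (m + 1) * deriv s (ξ ^ (m + 1))) +
      ξ ^ (m + 1) * deriv s (ξ ^ (m + 1)) +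
      ξ ^ (m + 1) * (ξ ^ (m + 1) * deriv (deriv s) (ξ ^ (m + 1))))) * e3
  rw [ee.deriv_eq, d2, (d1 ξ hξr).deriv]
  have hR' : (R : ℂ) ≠ 0 := ofReal_ne_zero.2 hR.ne'
  simp only [F1]
  rw [mul_div_mul_left _ _ hR']
  have n1 : ‖δ * (ξ ^ (m + 1) * deriv s (ξ ^ (m + 1))) + ξ ^ (m + 1) * deriv s (ξ ^ (m + 1)) +
      ξ ^ (m + 1) * (ξ ^ (m + 1) * deriv (deriv s) (ξ ^ (m + 1)))‖ < 1 - 10 * δ := by
    refine (norm_add₃_le).trans_lt ?_
    simp only [norm_mul, hw, norm_real, Real.norm_of_nonneg hδ.le, one_mul]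
    have a2 := b1' _ (hw.le.trans (by norm_num))
    have a3 := b2 _ hw.le
    nlinarith
  have n2 := small ξ hξr
  generalize δ * (ξ ^ (m + 1) * deriv s (ξ ^ (m + 1))) + ξ ^ (m + 1) * deriv s (ξ ^ (m + 1)) +
      ξ ^ (m + 1) * (ξ ^ (m + 1) * deriv (deriv s) (ξ ^ (m + 1))) = x at n1
  generalize δ ^ 2 * s (ξ ^ (m + 1)) + δ * (ξ ^ (m + 1) * deriv s (ξ ^ (m + 1))) = y at n2
  have n3 : 1 - 10 * δ ≤ ‖1 + y‖ := by
    have := norm_sub_le (1 + y) y
    simp only [add_sub_cancel_right, norm_one] at this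
    linarith
  have n4 : ‖x / (1 + y)‖ < 1 := by
    rw [norm_div, div_lt_one (by linarith [norm_nonneg x])]; linarith
  have := abs_lt.1 ((abs_re_le_norm _).trans_lt n4)
  rw [add_re, one_re]; linarith

end

end Pool.Agent.Lib.MP_8dfb46_an
end
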